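import Pool.Agent.W_448cr_h63.CG

/-!
# The near level lemma (MP_448cb3_co), without hypothesis on `PU`

At every level `i < j` the individual identity `|PD| = |PU|` holds below every maximal element, and both
numbers are at most one.
-/

namespace Pool.Agent.GaussPoset.Win

set_option linter.unusedSectionVars false

open Finset

universe u

variable {P : Type u} [Fintype P] [PartialOrder P] [DecidableEq P] {r j : ℕ}

/-- the elements of `PD` of a component are the pendants below its doubles -/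
lemma PDt_card {i : ℕ} (h : GoodTo P r (i + 1)) {t : P} (ht : lev t = 0) {lo hi : ℕ → ℕ}
    {x : ℕ → ℕ → P} (C : Comp P t (i + 1) lo hi x) :
    (PDt i t).card = ∑ a ∈ Finset.Ioc (lo i) (hi i), (pen (x (i + 1) a)).card := by
  classical
  have e0 : PDt i t = (Finset.Ioc (lo i) (hi i)).biUnion (fun a => pen (x (i + 1) a)) := by
    ext z
    rw [mem_PDt, mem_biUnion]
    constructor
    · rintro ⟨hz, hzt⟩
      obtain ⟨w, hw, hw2⟩ := S5_uc_PD hz
      obtain ⟨hlz, h1, -⟩ := mem_PD.1 hz
      have hzw : z ⋖ w := by rw [← mem_uc, hw]; simp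
      have hlw := lev_cov h.H hzw
      obtain ⟨s, hws, hs⟩ := exists_above' (x := w) (j := 0) (Nat.zero_le _)
      -- the top of `w` is `t`
      have hst : s = t := by
        obtain ⟨y, hy, hy2⟩ := Hul.exists_cov (lt_of_le_of_ne hzt (by rintro rfl; omega))
        have h2 : y ∈ uc z := mem_uc.2 hy
        rw [hw, mem_singleton] at h2
        subst h2
        exact h.top_eq (by omega) hs ht hws hy2
      subst hst
      obtain ⟨a, a1, a2, rfl⟩ := C.surj (i + 1) le_rfl w (by omega) hws
      rw [C.uc_two h ht (by omega) a1 a2] at hw2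
      exact ⟨a, mem_Ioc.2 hw2, mem_pen.2 ⟨hzw, h1⟩⟩
    · rintro ⟨a, ha, hz⟩
      rw [mem_Ioc] at ha
      rw [mem_pen] at hz
      have e1 := C.lo_ge i (by omega)
      have e2 := C.hi_le i (by omega)
      have hl := C.lev_x (i + 1) le_rfl a (by omega) (by omega)
      have hlz := lev_cov h.H hz.1
      exact ⟨mem_PD.2 ⟨by omega, hz.2, _, hz.1, (C.uc_two h ht (by omega) (by omega) (by omega)).2
        ha⟩, hz.1.le.trans (C.le_t (i + 1) le_rfl a (by omega) (by omega))⟩
  rw [e0, Finset.card_biUnion]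
  intro a ha b hb hab
  change Disjoint (pen (x (i + 1) a)) (pen (x (i + 1) b))
  rw [Finset.disjoint_left]
  intro z hz hz'
  rw [mem_coe, mem_Ioc] at ha hb
  rw [mem_pen] at hz hz'
  have e1 := C.lo_ge i (by omega)
  have e2 := C.hi_le i (by omega)
  exact hab (C.inj' le_rfl (by omega) (by omega) (by omega) (by omega)
    (uc_unique hz.2 hz.1 hz'.1))

/-- the elements of `PU` of a component -/
lemma PUt_card {i : ℕ} (h : GoodTo P r (i + 1)) {t : P} (ht : lev t = 0) {lo hi : ℕ → ℕ}
    {x : ℕ → ℕ → P} (C : Comp P t (i + 1) lo hi x) (hPU : (PUt i t).card ≤ 1) :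
    ((PUt i t).card = 1 ↔ LCO lo hi i ∨ RCO lo hi i) := by
  classical
  constructor
  · intro h1
    obtain ⟨y, hy⟩ := Finset.card_eq_one.1 h1
    have hy2 : y ∈ PUt i t := by rw [hy]; simp
    rw [mem_PUt] at hy2
    have hl := (mem_PU.1 hy2.1).1
    obtain ⟨m, rfl⟩ : ∃ m, i = m + 2 := ⟨i - 2, by omega⟩
    obtain ⟨h1, h2⟩ := C.PU_cases h ht (by omega) hy2.1 hy2.2
    rcases h2 with ⟨g1, g2, -, -⟩ | ⟨g1, g2, -, -⟩
    · exact Or.inl ⟨by omega, g1, g2, h1⟩
    · exact Or.inr ⟨by omega, g1, g2, h1⟩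
  · intro h1
    have h2 : 0 < (PUt i t).card := by
      rw [Finset.card_pos]
      rcases h1 with ⟨g0, g1, g2, g3⟩ | ⟨g0, g1, g2, g3⟩
      · obtain ⟨m, rfl⟩ : ∃ m, i = m + 2 := ⟨i - 2, by omega⟩
        exact ⟨_, mem_PUt.2 ⟨C.PU_left h ht (by omega) g1 g2 g3,
          C.le_t m (by omega) _ le_rfl (C.lohi m (by omega))⟩⟩
      · obtain ⟨m, rfl⟩ : ∃ m, i = m + 2 := ⟨i - 2, by omega⟩
        exact ⟨_, mem_PUt.2 ⟨C.PU_right h ht (by omega) g1 g2 g3,
          C.le_t m (by omega) _ (C.lohi m (by omega)) le_rfl⟩⟩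
    omega

/-- one component: from `S5c` to the individual identity -/
lemma S5c_card {i : ℕ} (h : GoodTo P r (i + 1)) {t : P} (ht : lev t = 0) {lo hi : ℕ → ℕ}
    {x : ℕ → ℕ → P} (C : Comp P t (i + 1) lo hi x) (hPU : (PUt i t).card ≤ 1)
    (hS : S5c lo hi x i) : (PDt i t).card = (PUt i t).card := by
  classical
  have h1 := PUt_card h ht C hPU
  rw [PDt_card h ht C]
  rcases hS with ⟨g1, g2, g3⟩ | ⟨g1, g2, b, hb, g3⟩ | ⟨g1, g2, b, hb, g3⟩
  · have h2 : (PUt i t).card = 0 := by
      have : ¬ (PUt i t).card = 1 := fun h3 => (h1.1 h3).elim g1 g2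
      omega
    rw [h2]
    refine Finset.sum_eq_zero fun a ha => ?_
    rw [mem_Ioc] at ha
    exact g3 a ha.1 ha.2
  · rw [h1.2 (Or.inl g1), Finset.sum_congr rfl fun a ha => g3 a (mem_Ioc.1 ha).1 (mem_Ioc.1 ha).2,
      Finset.sum_ite_eq' _ b, if_pos]
    obtain ⟨-, -, -, f⟩ := g1
    rw [mem_Ioc]
    omega
  · rw [h1.2 (Or.inr g1), Finset.sum_congr rfl fun a ha => g3 a (mem_Ioc.1 ha).1 (mem_Ioc.1 ha).2,
      Finset.sum_ite_eq' _ b, if_pos]
    obtain ⟨-, -, -, f⟩ := g1
    rw [mem_Ioc]
    omega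

lemma PD_zero (H : Gr P r) : PD P 0 = ∅ := by
  rw [Finset.eq_empty_iff_forall_notMem]
  intro z hz
  obtain ⟨hl, -, w, hw, hw2⟩ := mem_PD.1 hz
  have := lev_cov H hw
  have := uc_level_one H (x := w) (by omega)
  omega

/-- INDIVIDUAL (2,1), all components, all good windows: at every level `i < j` there are equally many
elements of `PD` and of `PU` below every maximal element, at most one. -/
theorem indiv_21 (h : GoodTo P r j) : ∀ i, i + 1 ≤ j → ∀ t : P, lev t = 0 →
    (PUt i t).card ≤ 1 ∧ (PDt i t).card = (PUt i t).card := by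
  classical
  intro i
  induction i using Nat.strong_induction_on with
  | _ i ih =>
    intro hij
    have hA : ∀ t : P, lev t = 0 → (PUt i t).card ≤ 1 := by
      intro t ht
      obtain ⟨lo, hi, x, C⟩ := comp_exists (h.mono hij) ht
      exact C.PU_le_one (h.mono hij) ht (fun m hm => (ih m (by omega) (by omega) t ht).2) i le_rfl
    intro t ht
    refine ⟨hA t ht, ?_⟩
    rcases Nat.eq_zero_or_pos i with rfl | hi0
    · have h1 : PDt 0 t = ∅ := by
        rw [Finset.eq_empty_iff_forall_notMem]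
        intro z hz
        rw [mem_PDt, PD_zero h.H] at hz
        exact absurd hz.1 (Finset.notMem_empty _)
      have h2 : PUt 0 t = ∅ := by
        rw [Finset.eq_empty_iff_forall_notMem]
        intro z hz
        have := (mem_PU.1 (mem_PUt.1 hz).1).1
        omega
      rw [h1, h2]
    · obtain ⟨lo, hi, x, C⟩ := comp_exists (h.mono hij) ht
      exact S5c_card (h.mono hij) ht C (hA t ht)
        ((near_level (h.mono hij) hi0 hA).2 t lo hi x ht C)

/-- NEAR LEVEL LEMMA, final form.  All levels less than `j = i + 1` are good, `i ≥ 1`.  Then (1) two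
covers of an element of level `j + 1` are neighbours (exactly one common cover) or both single-up
without a common cover; (2) in every component there are no pendants below the doubles of level `j`,
except that for letters C, O at one end (levels `i - 2`, `i - 1`, `i`) there is exactly one pendant,
below the end double or below the next double (flip). -/
theorem near_level' {i : ℕ} (h : GoodTo P r (i + 1)) (hi1 : 1 ≤ i) :
    (∀ z v v' : P, lev z = i + 2 → z ⋖ v → z ⋖ v' → v ≠ v' →
      ucv v v' = 1 ∨ ((uc v).card = 1 ∧ (uc v').card = 1 ∧ ucv v v' = 0)) ∧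
    ∀ (t : P) (lo hi : ℕ → ℕ) (x : ℕ → ℕ → P), lev t = 0 → Comp P t (i + 1) lo hi x →
      S5c lo hi x i :=
  near_level h hi1 fun t ht => (indiv_21 h i le_rfl t ht).1

end Pool.Agent.GaussPoset.Win
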