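import Pool.Agent.W_448cr_h63.CB
import Pool.Agent.W_448s5_h63.FourE

/-!
# Component rows at good levels (MP_448cb3_co), part C: covers, `PD` and `PU` in coordinates
-/

namespace Pool.Agent.GaussPoset.Win

set_option linter.unusedSectionVars false

open Finset

universe u

variable {P : Type u} [Fintype P] [PartialOrder P] [DecidableEq P] {r j : ℕ}
variable {t : P} {lo hi : ℕ → ℕ} {x : ℕ → ℕ → P}

/-- lower covers in coordinates -/
lemma Comp.dc_iff (C : Comp P t j lo hi x) (h : GoodTo P r j) (ht : lev t = 0) {k b : ℕ}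
    (hk : k < j) (h1 : lo k ≤ b) (h2 : b ≤ hi k) {z : P} :
    z ⋖ x k b ↔ ∃ a, lo (k + 1) ≤ a ∧ a ≤ hi (k + 1) ∧ (b = a ∨ b + 1 = a) ∧ x (k + 1) a = z := by
  constructor
  · intro hz
    have l1 := lev_cov h.H hz
    rw [C.lev_x k hk.le b h1 h2] at l1
    obtain ⟨a, a1, a2, rfl⟩ := C.surj (k + 1) hk z l1 (hz.le.trans (C.le_t k hk.le b h1 h2))
    exact ⟨a, a1, a2, (C.cov k hk a b a1 a2 h1 h2).1 hz, rfl⟩
  · rintro ⟨a, a1, a2, a3, rfl⟩
    exact (C.cov k hk a b a1 a2 h1 h2).2 a3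

/-- upper covers in coordinates -/
lemma Comp.uc_iff (C : Comp P t j lo hi x) (h : GoodTo P r j) (ht : lev t = 0) {k a : ℕ}
    (hk : k < j) (h1 : lo (k + 1) ≤ a) (h2 : a ≤ hi (k + 1)) {v : P} :
    x (k + 1) a ⋖ v ↔ ∃ b, lo k ≤ b ∧ b ≤ hi k ∧ (b = a ∨ b + 1 = a) ∧ x k b = v := by
  constructor
  · intro hv
    have l1 := lev_cov h.H hv
    rw [C.lev_x (k + 1) hk a h1 h2] at l1
    obtain ⟨b, b1, b2, rfl⟩ := C.surj k hk.le v (by omega)
      (h.cov_le (by rw [C.lev_x (k + 1) hk a h1 h2]; omega) ht (C.le_t (k + 1) hk a h1 h2) hv)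
    exact ⟨b, b1, b2, (C.cov k hk a b h1 h2 b1 b2).1 hv, rfl⟩
  · rintro ⟨b, b1, b2, b3, rfl⟩
    exact (C.cov k hk a b h1 h2 b1 b2).2 b3

/-- double-up elements in coordinates -/
lemma Comp.uc_two (C : Comp P t j lo hi x) (h : GoodTo P r j) (ht : lev t = 0) {k a : ℕ}
    (hk : k < j) (h1 : lo (k + 1) ≤ a) (h2 : a ≤ hi (k + 1)) :
    (uc (x (k + 1) a)).card = 2 ↔ lo k < a ∧ a ≤ hi k := by
  have e1 := C.lo_le k hk
  have e2 := C.hi_ge k hk
  constructor
  · intro hc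
    obtain ⟨v, v', hne, huc⟩ := Finset.card_eq_two.1 hc
    have hv : x (k + 1) a ⋖ v := by rw [← mem_uc, huc]; simp
    have hv' : x (k + 1) a ⋖ v' := by rw [← mem_uc, huc]; simp
    obtain ⟨b, b1, b2, b3, rfl⟩ := (C.uc_iff h ht hk h1 h2).1 hv
    obtain ⟨b', b1', b2', b3', rfl⟩ := (C.uc_iff h ht hk h1 h2).1 hv'
    have : b ≠ b' := fun he => hne (by rw [he])
    omega
  · rintro ⟨h3, h4⟩
    have f1 : x (k + 1) a ⋖ x k a := (C.cov k hk a a h1 h2 h3.le h4).2 (Or.inl rfl)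
    have f2 : x (k + 1) a ⋖ x k (a - 1) :=
      (C.cov k hk a (a - 1) h1 h2 (by omega) (by omega)).2 (Or.inr (by omega))
    exact uc_card_pair h.H f2 f1 (C.inj k hk.le _ _ (by omega) (by omega) h4)

/-- the upper covers of a double-up element -/
lemma Comp.uc_eq (C : Comp P t j lo hi x) (h : GoodTo P r j) (ht : lev t = 0) {k a : ℕ}
    (hk : k < j) (h3 : lo k < a) (h4 : a ≤ hi k) :
    uc (x (k + 1) a) = {x k (a - 1), x k a} := by
  have e1 := C.lo_ge k hk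
  have e2 := C.hi_le k hk
  have f1 : x (k + 1) a ⋖ x k a := (C.cov k hk a a (by omega) (by omega) h3.le h4).2 (Or.inl rfl)
  have f2 : x (k + 1) a ⋖ x k (a - 1) :=
    (C.cov k hk a (a - 1) (by omega) (by omega) (by omega) (by omega)).2 (Or.inr (by omega))
  exact StB_uc_pair h.H f2 f1 (C.inj k hk.le _ _ (by omega) (by omega) h4)

/-- double-down elements in coordinates -/
lemma Comp.dc_two (C : Comp P t j lo hi x) (h : GoodTo P r j) (ht : lev t = 0) {k b : ℕ}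
    (hk : k < j) (h1 : lo k ≤ b) (h2 : b ≤ hi k) :
    (dc (x k b)).card = 2 ↔ lo (k + 1) ≤ b ∧ b + 1 ≤ hi (k + 1) := by
  have e1 := C.lo_ge k hk
  have e2 := C.hi_le k hk
  constructor
  · intro hc
    obtain ⟨v, v', hne, hdc⟩ := Finset.card_eq_two.1 hc
    have hv : v ⋖ x k b := by rw [← mem_dc, hdc]; simp
    have hv' : v' ⋖ x k b := by rw [← mem_dc, hdc]; simp
    obtain ⟨a, a1, a2, a3, rfl⟩ := (C.dc_iff h ht hk h1 h2).1 hv
    obtain ⟨a', a1', a2', a3', rfl⟩ := (C.dc_iff h ht hk h1 h2).1 hv'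
    have : a ≠ a' := fun he => hne (by rw [he])
    omega
  · rintro ⟨h3, h4⟩
    have f1 : x (k + 1) b ⋖ x k b := (C.cov k hk b b h3 (by omega) h1 h2).2 (Or.inl rfl)
    have f2 : x (k + 1) (b + 1) ⋖ x k b :=
      (C.cov k hk (b + 1) b (by omega) h4 h1 h2).2 (Or.inr rfl)
    have hne := C.inj (k + 1) hk b (b + 1) h3 (by omega) h4
    have h5 := dc_card_le h.H (x k b)
    have h6 : ({x (k + 1) b, x (k + 1) (b + 1)} : Finset P) ⊆ dc (x k b) := by
      intro y hy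
      rw [mem_insert, mem_singleton] at hy
      rcases hy with rfl | rfl
      · exact mem_dc.2 f1
      · exact mem_dc.2 f2
    have h7 := Finset.card_le_card h6
    rw [Finset.card_pair hne] at h7
    omega

/-- the lower covers of a double-down element -/
lemma Comp.dc_eq (C : Comp P t j lo hi x) (h : GoodTo P r j) (ht : lev t = 0) {k b : ℕ}
    (hk : k < j) (h1 : lo k ≤ b) (h2 : b ≤ hi k) (h3 : lo (k + 1) ≤ b) (h4 : b + 1 ≤ hi (k + 1)) :
    dc (x k b) = {x (k + 1) b, x (k + 1) (b + 1)} := by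
  have f1 : x (k + 1) b ⋖ x k b := (C.cov k hk b b h3 (by omega) h1 h2).2 (Or.inl rfl)
  have f2 : x (k + 1) (b + 1) ⋖ x k b :=
    (C.cov k hk (b + 1) b (by omega) h4 h1 h2).2 (Or.inr rfl)
  have hne := C.inj (k + 1) hk b (b + 1) h3 (by omega) h4
  symm
  refine Finset.eq_of_subset_of_card_le ?_ ?_
  · intro y hy
    rw [mem_insert, mem_singleton] at hy
    rcases hy with rfl | rfl
    · exact mem_dc.2 f1
    · exact mem_dc.2 f2
  · rw [Finset.card_pair hne]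
    exact dc_card_le h.H _

/-- `PU` in coordinates: the elements of `PU` below `t` sit at the ends of the row -/
theorem Comp.PU_cases (C : Comp P t j lo hi x) (h : GoodTo P r j) (ht : lev t = 0) {m : ℕ}
    (hm : m + 2 ≤ j) {y : P} (hy : y ∈ PU P (m + 2)) (hyt : y ≤ t) :
    lo (m + 2) + 1 ≤ hi (m + 2) ∧
    ((lo (m + 1) = lo m + 1 ∧ lo (m + 2) = lo (m + 1) ∧ y = x m (lo m) ∧
      stD (m + 2) y = {x (m + 2) (lo (m + 2)), x (m + 2) (lo (m + 2) + 1)}) ∨
    (hi (m + 1) = hi m ∧ hi (m + 2) = hi (m + 1) + 1 ∧ y = x m (hi m) ∧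
      stD (m + 2) y = {x (m + 2) (hi (m + 2) - 1), x (m + 2) (hi (m + 2))})) := by
  obtain ⟨hly, hy1, u, hu, hu2⟩ := mem_PU.1 hy
  have hly' : lev y = m := by omega
  obtain ⟨b, b1, b2, rfl⟩ := C.surj m (by omega) y hly' hyt
  obtain ⟨a, a1, a2, a3, rfl⟩ := (C.dc_iff h ht (by omega) b1 b2).1 hu
  rw [C.dc_two h ht (by omega) a1 a2] at hu2
  have hu3 : lo (m + 2) ≤ a ∧ a + 1 ≤ hi (m + 2) := hu2
  have hdc : dc (x m b) = {x (m + 1) a} := by
    obtain ⟨w, hw⟩ := Finset.card_eq_one.1 hy1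
    have h1 : x (m + 1) a ∈ dc (x m b) := mem_dc.2 hu
    rw [hw, mem_singleton] at h1
    rw [hw, h1]
  have hst := ClE_stD h.H (i := m + 2) hly hdc
  rw [C.dc_eq h ht (by omega) a1 a2 hu2.1 hu2.2] at hst
  have e1 := C.lo_le m (by omega)
  have e2 := C.lo_ge m (by omega)
  have e3 := C.hi_le m (by omega)
  have e4 := C.hi_ge m (by omega)
  have e5 : lo (m + 1) ≤ lo (m + 2) := C.lo_le (m + 1) (by omega)
  have e6 : hi (m + 2) ≤ hi (m + 1) + 1 := C.hi_ge (m + 1) (by omega)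
  have hn : ¬ (lo (m + 1) ≤ b ∧ b + 1 ≤ hi (m + 1)) := by
    rw [← C.dc_two h ht (by omega) b1 b2]
    omega
  refine ⟨by omega, ?_⟩
  rcases a3 with rfl | rfl
  · right
    have f1 : b = hi m := by omega
    have f2 : hi (m + 1) = hi m := by omega
    have f3 : hi (m + 2) = hi (m + 1) + 1 := by omega
    refine ⟨f2, f3, by rw [f1], ?_⟩
    rw [hst, f3, f2, f1, Nat.add_sub_cancel]
  · left
    have f1 : b = lo m := by omega
    have f2 : lo (m + 1) = lo m + 1 := by omega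
    have f3 : lo (m + 2) = lo (m + 1) := by omega
    refine ⟨f2, f3, by rw [f1], ?_⟩
    rw [hst, f3, f2, f1]

/-- `PU` in coordinates: left end -/
theorem Comp.PU_left (C : Comp P t j lo hi x) (h : GoodTo P r j) (ht : lev t = 0) {m : ℕ}
    (hm : m + 2 ≤ j) (h1 : lo (m + 1) = lo m + 1) (h2 : lo (m + 2) = lo (m + 1))
    (h3 : lo (m + 2) + 1 ≤ hi (m + 2)) : x m (lo m) ∈ PU P (m + 2) := by
  have e0 := C.lohi m (by omega)
  have e1 := C.lohi (m + 1) (by omega)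
  have e3 := C.hi_ge m (by omega)
  have e4 := C.hi_le m (by omega)
  have hlev := C.lev_x m (by omega) (lo m) le_rfl e0
  have hu : x (m + 1) (lo (m + 1)) ⋖ x m (lo m) :=
    (C.cov m (by omega) _ _ le_rfl e1 le_rfl e0).2 (Or.inr h1.symm)
  rw [mem_PU]
  refine ⟨by omega, ?_, _, hu, (C.dc_two h ht (by omega) le_rfl e1).2
    ⟨h2.le, show lo (m + 1) + 1 ≤ hi (m + 2) by omega⟩⟩
  rcases dc_card_cases h.H hu with h5 | h5
  · exact h5
  · exfalso
    rw [C.dc_two h ht (by omega) le_rfl e0] at h5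
    omega

/-- `PU` in coordinates: right end -/
theorem Comp.PU_right (C : Comp P t j lo hi x) (h : GoodTo P r j) (ht : lev t = 0) {m : ℕ}
    (hm : m + 2 ≤ j) (h1 : hi (m + 1) = hi m) (h2 : hi (m + 2) = hi (m + 1) + 1)
    (h3 : lo (m + 2) + 1 ≤ hi (m + 2)) : x m (hi m) ∈ PU P (m + 2) := by
  have e0 := C.lohi m (by omega)
  have e1 := C.lohi (m + 1) (by omega)
  have e3 := C.lo_le m (by omega)
  have e4 := C.lo_ge m (by omega)
  have hlev := C.lev_x m (by omega) (hi m) e0 le_rfl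
  have hu : x (m + 1) (hi (m + 1)) ⋖ x m (hi m) :=
    (C.cov m (by omega) _ _ e1 le_rfl e0 le_rfl).2 (Or.inl h1.symm)
  rw [mem_PU]
  refine ⟨by omega, ?_, _, hu, (C.dc_two h ht (by omega) e1 le_rfl).2
    ⟨show lo (m + 2) ≤ hi (m + 1) by omega, show hi (m + 1) + 1 ≤ hi (m + 2) by omega⟩⟩
  rcases dc_card_cases h.H hu with h5 | h5
  · exact h5
  · exfalso
    rw [C.dc_two h ht (by omega) e0 le_rfl] at h5
    omega

end Pool.Agent.GaussPoset.Win
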