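import Pool.Agent.W_448cr_h63.CA

/-!
# Component rows at good levels (MP_448cb3_co), part B: existence of the coordinates
-/

namespace Pool.Agent.GaussPoset.Win

set_option linter.unusedSectionVars false

open Finset

universe u

variable {P : Type u} [Fintype P] [PartialOrder P] [DecidableEq P] {r j : ℕ}
variable {t : P} {lo hi : ℕ → ℕ} {x : ℕ → ℕ → P}

lemma uc_card_pair (H : Gr P r) {z v v' : P} (h1 : z ⋖ v) (h2 : z ⋖ v') (hne : v ≠ v') :
    (uc z).card = 2 := by
  rw [StB_uc_pair H h1 h2 hne, Finset.card_pair hne]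

/-- some lower cover exists -/
lemma exists_dc (H : Gr P r) {v : P} (h : lev v < r) : ∃ z, z ⋖ v := by
  obtain ⟨z, hz, hz2⟩ := H.exists_below (x := v) (j := lev v + 1) (by omega) (by omega)
  exact ⟨z, H.covBy_iff.2 ⟨lt_of_le_of_ne hz (by rintro rfl; omega), hz2⟩⟩

/-- level zero -/
lemma comp_zero (h : GoodTo P r 0) (ht : lev t = 0) :
    Comp P t 0 (fun _ => 0) (fun _ => 0) (fun _ _ => t) where
  lo0 := rfl
  hi0 := rfl
  x0 := rfl
  lo_le := fun k hk => by omega
  lo_ge := fun k hk => by omega
  hi_le := fun k hk => by omega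
  hi_ge := fun k hk => by omega
  lohi := fun k hk => le_rfl
  lev_x := fun k hk a _ _ => by omega
  le_t := fun k hk a _ _ => le_rfl
  inj := fun k hk a b h1 h2 h3 => by omega
  surj := fun k hk y hy hyt => by
    refine ⟨0, le_rfl, le_rfl, ?_⟩
    by_contra hne
    have := lev_strictAnti (lt_of_le_of_ne hyt (Ne.symm hne))
    omega
  cov := fun k hk => by omega

/-- one step down -/
theorem Comp.step (C : Comp P t j lo hi x) (h : GoodTo P r (j + 1)) (ht : lev t = 0) :
    ∃ (lo' hi' : ℕ → ℕ) (x' : ℕ → ℕ → P), Comp P t (j + 1) lo' hi' x' ∧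
      ∀ k, k ≤ j → lo' k = lo k ∧ hi' k = hi k ∧ x' k = x k := by
  classical
  have H := h.H
  have hJ : GoodTo P r j := h.mono (by omega)
  have hg := h.good j (by omega)
  have hlohi := C.lohi j le_rfl
  -- the element `y` below `t` has a cover in the row
  have hup : ∀ y, lev y = j + 1 → y ≤ t → ∃ a, lo j ≤ a ∧ a ≤ hi j ∧ y ⋖ x j a := by
    intro y hy hyt
    obtain ⟨v, hv, hv2⟩ := exists_lev_succ hy
    have hyv : y ⋖ v := H.covBy_iff.2 ⟨hv, by omega⟩
    obtain ⟨a, ha1, ha2, rfl⟩ := C.surj j le_rfl v hv2 (h.cov_le hy.le ht hyt hyv)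
    exact ⟨a, ha1, ha2, hyv⟩
  have hdn : ∀ {y a}, lo j ≤ a → a ≤ hi j → y ⋖ x j a → lev y = j + 1 ∧ y ≤ t := by
    intro y a h1 h2 h3
    exact ⟨by rw [lev_cov H h3, C.lev_x j le_rfl a h1 h2], h3.le.trans (C.le_t j le_rfl a h1 h2)⟩
  -- all covers are in the row
  have hrow : ∀ {y v}, lev y = j + 1 → y ≤ t → y ⋖ v → ∃ a, lo j ≤ a ∧ a ≤ hi j ∧ x j a = v := by
    intro y v hy hyt hv
    have := lev_cov H hv
    exact C.surj j le_rfl v (by omega) (h.cov_le hy.le ht hyt hv)
  rcases eq_or_lt_of_le hlohi with heq | hlt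
  · -- one element
    have hsing : ∀ {z v}, z ⋖ x j (lo j) → z ⋖ v → v = x j (lo j) := by
      intro z v h1 h2
      obtain ⟨h3, h4⟩ := hdn le_rfl hlohi h1
      obtain ⟨a, ha1, ha2, rfl⟩ := hrow h3 h4 h2
      rw [show a = lo j by omega]
    obtain ⟨z, hz⟩ := exists_dc H (v := x j (lo j)) (by
      rw [C.lev_x j le_rfl _ le_rfl hlohi]
      have := h.hr
      omega)
    rcases dc_card_cases H hz with h1 | h1
    · refine C.mk_step h (l' := lo j) (h' := hi j) (X := fun _ => z) ⟨le_rfl, by omega⟩
        ⟨le_rfl, by omega⟩ hlohi ?_ ?_ ?_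
      · intro a h2 h3 b h4 h5
        have e1 : a = lo j := by omega
        have e2 : b = lo j := by omega
        subst e1
        rw [e2]
        exact ⟨fun _ => Or.inl rfl, fun _ => hz⟩
      · intro a b h2 h3 h4
        omega
      · intro y hy hyt
        obtain ⟨a, ha1, ha2, ha3⟩ := hup y hy hyt
        rw [show a = lo j by omega] at ha3
        exact ⟨lo j, le_rfl, hlohi, dc_unique h1 hz ha3⟩
    · obtain ⟨z', hz', hne⟩ := exists_other_dc (z := z) h1
      refine C.mk_step h (l' := lo j) (h' := hi j + 1) (X := fun a => if a = lo j then z else z')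
        ⟨le_rfl, by omega⟩ ⟨by omega, le_rfl⟩ (by omega) ?_ ?_ ?_
      · intro a h2 h3 b h4 h5
        have e2 : b = lo j := by omega
        rw [e2]
        split_ifs with e1
        · exact ⟨fun _ => Or.inl e1.symm, fun _ => hz⟩
        · exact ⟨fun _ => Or.inr (by omega), fun _ => hz'⟩
      · intro a b h2 h3 h4
        rw [if_pos (show a = lo j by omega), if_neg (show ¬ b = lo j by omega)]
        exact hne.symm
      · intro y hy hyt
        obtain ⟨a, ha1, ha2, ha3⟩ := hup y hy hyt
        rw [show a = lo j by omega] at ha3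
        by_cases e1 : y = z
        · exact ⟨lo j, le_rfl, by omega, by simp only [if_true]; exact e1.symm⟩
        · refine ⟨lo j + 1, by omega, by omega, ?_⟩
          rw [if_neg (by omega)]
          by_contra hcon
          exact dc_three H hz hz' ha3 hne.symm (Ne.symm e1) hcon
  · -- at least two elements
    have hd : ∀ a, lo j < a → a ≤ hi j → dcv (x j (a - 1)) (x j a) = 1 := by
      intro a h1 h2
      rw [← hg _ _ (C.lev_x j le_rfl _ (by omega) (by omega)) (C.lev_x j le_rfl _ h1.le h2)
        (C.inj j le_rfl _ _ (by omega) (by omega) h2)]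
      rw [C.ucv_lt hJ ht le_rfl (by omega) (by omega) h2, if_pos (by omega)]
    have hy : ∀ a, ∃ y : P, lo j < a → a ≤ hi j → y ⋖ x j (a - 1) ∧ y ⋖ x j a := by
      intro a
      by_cases hc : lo j < a ∧ a ≤ hi j
      · obtain ⟨y, h1, h2⟩ := StA_of_dcv (hd a hc.1 hc.2).ge
        exact ⟨y, fun _ _ => ⟨h1, h2⟩⟩
      · exact ⟨t, fun h1 h2 => absurd ⟨h1, h2⟩ hc⟩
    choose Y hY using hy
    have hYc : ∀ a, lo j < a → a ≤ hi j → (uc (Y a)).card = 2 := fun a h1 h2 =>
      uc_card_pair H (hY a h1 h2).1 (hY a h1 h2).2 (C.inj j le_rfl _ _ (by omega) (by omega) h2)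
    have hYn : ∀ {a}, lo j < a → a ≤ hi j → ∀ {z : P}, (uc z).card = 1 → Y a ≠ z := by
      rintro a h1 h2 z hz rfl
      have := hYc a h1 h2
      omega
    have hYne : ∀ a, lo j < a → a < hi j → Y a ≠ Y (a + 1) := by
      intro a h1 h2 he
      obtain ⟨e1, e2⟩ := hY a h1 h2.le
      obtain ⟨e3, e4⟩ := hY (a + 1) (by omega) (by omega)
      rw [← he] at e4
      exact uc_three H e1 e2 e4 (C.inj j le_rfl _ _ (by omega) (by omega) (by omega))
        (C.inj j le_rfl _ _ (by omega) (by omega) (by omega))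
        (C.inj j le_rfl _ _ (by omega) (by omega) (by omega))
    -- a single-up element below `x j a`
    have hsu : ∀ {z a}, lo j ≤ a → a ≤ hi j → z ⋖ x j a → (uc z).card = 1 → a = lo j ∨ a = hi j := by
      intro z a h1 h2 h3 h4
      by_contra hcon
      obtain ⟨e1, e2⟩ := hY a (by omega) h2
      obtain ⟨e3, e4⟩ := hY (a + 1) (by omega) (by omega)
      exact dc_three H e2 (by simpa using e3) h3 (hYne a (by omega) (by omega))
        (hYn (by omega) h2 h4) (hYn (by omega) (by omega) h4)
    have hsl : ∀ {z z'}, z ⋖ x j (lo j) → z' ⋖ x j (lo j) → (uc z).card = 1 → (uc z').card = 1 →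
        z = z' := by
      intro z z' h1 h2 h3 h4
      by_contra hcon
      obtain ⟨e3, e4⟩ := hY (lo j + 1) (by omega) (by omega)
      exact dc_three H (by simpa using e3) h1 h2 (hYn (by omega) (by omega) h3)
        (hYn (by omega) (by omega) h4) hcon
    have hsr : ∀ {z z'}, z ⋖ x j (hi j) → z' ⋖ x j (hi j) → (uc z).card = 1 → (uc z').card = 1 →
        z = z' := by
      intro z z' h1 h2 h3 h4
      by_contra hcon
      obtain ⟨e3, e4⟩ := hY (hi j) hlt le_rfl
      exact dc_three H e4 h1 h2 (hYn hlt le_rfl h3) (hYn hlt le_rfl h4) hcon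
    -- pendants
    set L : Prop := ∃ z : P, z ⋖ x j (lo j) ∧ (uc z).card = 1 with hL
    set R : Prop := ∃ z : P, z ⋖ x j (hi j) ∧ (uc z).card = 1 with hR
    obtain ⟨zL, hzL⟩ : ∃ z : P, L → z ⋖ x j (lo j) ∧ (uc z).card = 1 := by
      by_cases hc : L
      · obtain ⟨z, hz⟩ := hc
        exact ⟨z, fun _ => hz⟩
      · exact ⟨t, fun h1 => absurd h1 hc⟩
    obtain ⟨zR, hzR⟩ : ∃ z : P, R → z ⋖ x j (hi j) ∧ (uc z).card = 1 := by
      by_cases hc : R
      · obtain ⟨z, hz⟩ := hc
        exact ⟨z, fun _ => hz⟩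
      · exact ⟨t, fun h1 => absurd h1 hc⟩
    obtain ⟨l', hl'⟩ : ∃ l', (L → l' = lo j) ∧ (¬ L → l' = lo j + 1) := by
      by_cases hc : L
      · exact ⟨lo j, fun _ => rfl, fun h1 => absurd hc h1⟩
      · exact ⟨lo j + 1, fun h1 => absurd h1 hc, fun _ => rfl⟩
    obtain ⟨h', hh'⟩ : ∃ h', (R → h' = hi j + 1) ∧ (¬ R → h' = hi j) := by
      by_cases hc : R
      · exact ⟨hi j + 1, fun _ => rfl, fun h1 => absurd hc h1⟩
      · exact ⟨hi j, fun h1 => absurd h1 hc, fun _ => rfl⟩
    have hlo1 : lo j ≤ l' ∧ l' ≤ lo j + 1 := by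
      by_cases hc : L
      · rw [hl'.1 hc]
        omega
      · rw [hl'.2 hc]
        omega
    have hhi1 : hi j ≤ h' ∧ h' ≤ hi j + 1 := by
      by_cases hc : R
      · rw [hh'.1 hc]
        omega
      · rw [hh'.2 hc]
        omega
    obtain ⟨X, hX1, hX2, hX3⟩ : ∃ X : ℕ → P, (∀ a, a ≤ lo j → X a = zL) ∧
        (∀ a, lo j < a → a ≤ hi j → X a = Y a) ∧ (∀ a, hi j < a → X a = zR) := by
      refine ⟨fun a => if a ≤ lo j then zL else if a ≤ hi j then Y a else zR, ?_, ?_, ?_⟩
      · intro a h1
        simp only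
        rw [if_pos h1]
      · intro a h1 h2
        simp only
        rw [if_neg (by omega), if_pos h2]
      · intro a h1
        simp only
        rw [if_neg (by omega), if_neg (by omega)]
    have hlow : ∀ a, l' ≤ a → a ≤ lo j → L ∧ a = lo j := by
      intro a h1 h2
      by_cases hc : L
      · exact ⟨hc, by omega⟩
      · have := hl'.2 hc
        omega
    have hhigh : ∀ a, a ≤ h' → hi j < a → R ∧ a = hi j + 1 := by
      intro a h1 h2
      by_cases hc : R
      · exact ⟨hc, by omega⟩
      · have := hh'.2 hc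
        omega
    have huc1 : ∀ {z a}, z ⋖ x j a → (uc z).card = 1 → ∀ {b}, z ⋖ x j b → x j b = x j a :=
      fun {z a} h1 h2 {b} h3 => uc_unique h2 h3 h1
    refine C.mk_step h (l' := l') (h' := h') (X := X) hlo1 hhi1 (by omega) ?_ ?_ ?_
    · intro a h1 h2 b h3 h4
      rcases Nat.lt_or_ge (lo j) a with h5 | h5
      · rcases Nat.lt_or_ge (hi j) a with h6 | h6
        · obtain ⟨h7, h8⟩ := hhigh a h2 h6
          rw [hX3 a h6]
          constructor
          · intro h9
            have := C.inj' le_rfl h3 h4 hlohi le_rfl (huc1 (hzR h7).1 (hzR h7).2 h9)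
            omega
          · intro h9
            rw [show b = hi j by omega]
            exact (hzR h7).1
        · rw [hX2 a h5 h6]
          obtain ⟨e1, e2⟩ := hY a h5 h6
          have hne := C.inj j le_rfl (a - 1) a (by omega) (by omega) h6
          constructor
          · intro h9
            by_contra hcon
            refine uc_three H e1 e2 h9 hne ?_ ?_
            · intro he
              have := C.inj' le_rfl (by omega) (by omega) h3 h4 he
              omega
            · intro he
              have := C.inj' le_rfl (by omega) (by omega) h3 h4 he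
              omega
          · rintro (h9 | h9)
            · rw [h9]
              exact e2
            · rw [show b = a - 1 by omega]
              exact e1
      · obtain ⟨h7, h8⟩ := hlow a h1 h5
        rw [hX1 a h5]
        constructor
        · intro h9
          have := C.inj' le_rfl h3 h4 le_rfl hlohi (huc1 (hzL h7).1 (hzL h7).2 h9)
          omega
        · intro h9
          rw [show b = lo j by omega]
          exact (hzL h7).1
    · intro a b h1 h2 h3 he
      rcases Nat.lt_or_ge (lo j) a with h5 | h5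
      · rcases Nat.lt_or_ge (hi j) b with h6 | h6
        · obtain ⟨h7, h8⟩ := hhigh b h3 h6
          have h9 : a ≤ hi j := by omega
          rw [hX2 a h5 h9, hX3 b h6] at he
          exact hYn h5 h9 (hzR h7).2 he
        · rw [hX2 a h5 (by omega), hX2 b (by omega) h6] at he
          obtain ⟨e1, e2⟩ := hY a h5 (by omega)
          obtain ⟨e3, e4⟩ := hY b (by omega) h6
          rw [← he] at e4
          exact uc_three H e1 e2 e4 (C.inj j le_rfl _ _ (by omega) (by omega) (by omega))
            (C.inj j le_rfl _ _ (by omega) (by omega) (by omega))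
            (C.inj j le_rfl _ _ (by omega) (by omega) (by omega))
      · obtain ⟨h7, h8⟩ := hlow a h1 h5
        rcases Nat.lt_or_ge (hi j) b with h6 | h6
        · obtain ⟨h9, h10⟩ := hhigh b h3 h6
          rw [hX1 a h5, hX3 b h6] at he
          have h11 := (hzR h9).1
          rw [← he] at h11
          have := C.inj' le_rfl hlohi le_rfl le_rfl hlohi (huc1 (hzL h7).1 (hzL h7).2 h11)
          omega
        · rw [hX1 a h5, hX2 b (by omega) h6] at he
          exact hYn (by omega) h6 (hzL h7).2 he.symm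
    · intro y hy hyt
      obtain ⟨a, ha1, ha2, ha3⟩ := hup y hy hyt
      rcases uc_card_cases H (x := y) (by omega) with h1 | h1
      · rcases hsu ha1 ha2 ha3 h1 with rfl | rfl
        · have hc : L := ⟨y, ha3, h1⟩
          refine ⟨lo j, (hl'.1 hc).le, by omega, ?_⟩
          rw [hX1 _ le_rfl]
          exact hsl (hzL hc).1 ha3 (hzL hc).2 h1
        · have hc : R := ⟨y, ha3, h1⟩
          refine ⟨hi j + 1, by omega, (hh'.1 hc).ge, ?_⟩
          rw [hX3 _ (by omega)]
          exact hsr (hzR hc).1 ha3 (hzR hc).2 h1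
      · have key : ∀ a b, lo j ≤ a → a < b → b ≤ hi j → y ⋖ x j a → y ⋖ x j b →
            ∃ c, l' ≤ c ∧ c ≤ h' ∧ X c = y := by
          intro a b h3 h4 h5 h6 h7
          have h8 := StA_dcv_pos h6 h7
          rw [← hg _ _ (C.lev_x j le_rfl a h3 (by omega)) (C.lev_x j le_rfl b (by omega) h5)
            (C.inj j le_rfl a b h3 h4 h5), C.ucv_lt hJ ht le_rfl h3 h4 h5] at h8
          have h9 : b = a + 1 := by
            by_contra hcon
            rw [if_neg hcon] at h8
            omega
          subst h9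
          refine ⟨a + 1, by omega, by omega, ?_⟩
          rw [hX2 (a + 1) (by omega) h5]
          obtain ⟨f1, f2⟩ := hY (a + 1) (by omega) h5
          have f3 := hd (a + 1) (by omega) h5
          exact StB_unique f3 f1 f2 (by simpa using h6) h7
        obtain ⟨v, hv, hne⟩ := exists_other_uc (y := x j a) h1
        obtain ⟨b, hb1, hb2, rfl⟩ := hrow hy hyt hv
        have hab : a ≠ b := fun he => hne (by rw [he])
        rcases Nat.lt_or_ge a b with h3 | h3
        · exact key a b ha1 h3 hb2 ha3 hv
        · exact key b a hb1 (by omega) ha2 hv ha3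

/-- coordinates of the elements of level at most `j` below a maximal element -/
theorem comp_exists (h : GoodTo P r j) (ht : lev t = 0) :
    ∃ (lo hi : ℕ → ℕ) (x : ℕ → ℕ → P), Comp P t j lo hi x := by
  induction j with
  | zero => exact ⟨_, _, _, comp_zero h ht⟩
  | succ j ih =>
    obtain ⟨lo, hi, x, C⟩ := ih (h.mono (by omega))
    obtain ⟨lo', hi', x', C', -⟩ := C.step h ht
    exact ⟨lo', hi', x', C'⟩

end Pool.Agent.GaussPoset.Win
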