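import Pool.Agent.W_448cr_h63.CC

/-!
# Component rows at good levels (MP_448cb3_co), part D: at most one element of `PU` per component
-/

namespace Pool.Agent.GaussPoset.Win

set_option linter.unusedSectionVars false

open Finset

universe u

section quad

variable {ι : Type*} [DecidableEq ι]

/-- a nonnegative vector minus the indicator of a vertex whose neighbours form a clique -/
lemma quad_bound (S N : Finset ι) (G : ι → ι → ℤ) (hG : ∀ a b, G a b = 0 ∨ G a b = 1)
    (hd : ∀ a, G a a = 1) (hN : N ⊆ S) (hcl : ∀ a ∈ N, ∀ b ∈ N, G a b = 1) {e : ι} (he : e ∈ N)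
    (hs : ∀ a b, G a b = G b a) (hnb : ∀ b ∈ S, b ∉ N → G e b = 0) (p : ι → ℤ) (hp : ∀ a, 0 ≤ p a) :
    (∑ a ∈ N, p a - 1) ^ 2 + ∑ a ∈ S \ N, p a ^ 2 ≤
      ∑ a ∈ S, ∑ b ∈ S, G a b * ((p a - if a = e then 1 else 0) * (p b - if b = e then 1 else 0)) := by
  have heS : e ∈ S := hN he
  -- expansion
  have h1 : ∑ a ∈ S, ∑ b ∈ S, G a b * ((p a - if a = e then 1 else 0) * (p b - if b = e then 1 else 0))
      = ∑ a ∈ S, ∑ b ∈ S, G a b * (p a * p b) - 2 * ∑ b ∈ S, G e b * p b + 1 := by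
    have e1 : ∀ a ∈ S, ∀ b ∈ S,
        G a b * ((p a - if a = e then 1 else 0) * (p b - if b = e then 1 else 0)) =
        G a b * (p a * p b) - (if a = e then G e b * p b else 0) -
          (if b = e then G e a * p a else 0) +
          (if a = e then (if b = e then G e e else 0) else 0) := by
      intro a _ b _
      split_ifs with h1 h2 h2
      · subst h1
        subst h2
        ring
      · subst h1
        ring
      · subst h2
        rw [hs b a]
        ring
      · ring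
    rw [sum_congr rfl fun a ha => sum_congr rfl (e1 a ha)]
    have e2 : ∑ a ∈ S, ∑ b ∈ S, (if a = e then G e b * p b else 0) = ∑ b ∈ S, G e b * p b := by
      rw [sum_comm]
      refine sum_congr rfl fun b _ => ?_
      rw [sum_ite_eq' S e, if_pos heS]
    have e3 : ∑ a ∈ S, ∑ b ∈ S, (if b = e then G e a * p a else 0) = ∑ b ∈ S, G e b * p b := by
      refine sum_congr rfl fun b _ => ?_
      rw [sum_ite_eq' S e, if_pos heS]
    have e4 : ∑ a ∈ S, ∑ b ∈ S, (if a = e then (if b = e then G e e else 0) else 0) = 1 := by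
      rw [sum_comm]
      have : ∀ b ∈ S, ∑ a ∈ S, (if a = e then (if b = e then G e e else 0) else 0) =
          if b = e then G e e else 0 := fun b _ => by rw [sum_ite_eq' S e, if_pos heS]
      rw [sum_congr rfl this, sum_ite_eq' S e, if_pos heS, hd]
    simp only [sum_add_distrib, sum_sub_distrib]
    rw [e2, e3, e4]
    ring
  have h2 : ∑ b ∈ S, G e b * p b = ∑ b ∈ N, p b := by
    rw [← sum_sdiff hN]
    have : ∑ b ∈ S \ N, G e b * p b = 0 := by
      refine sum_eq_zero fun b hb => ?_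
      rw [mem_sdiff] at hb
      rw [hnb b hb.1 hb.2, zero_mul]
    rw [this, zero_add]
    exact sum_congr rfl fun b hb => by rw [hcl e he b hb, one_mul]
  have h3 : (∑ a ∈ N, p a) ^ 2 + ∑ a ∈ S \ N, p a ^ 2 ≤ ∑ a ∈ S, ∑ b ∈ S, G a b * (p a * p b) := by
    have hnn : ∀ a b, 0 ≤ G a b * (p a * p b) := by
      intro a b
      refine mul_nonneg ?_ (mul_nonneg (hp a) (hp b))
      rcases hG a b with h | h <;> rw [h] <;> norm_num
    rw [← sum_sdiff hN (f := fun a => ∑ b ∈ S, G a b * (p a * p b)), add_comm]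
    refine add_le_add ?_ ?_
    · refine sum_le_sum fun a ha => ?_
      have ha2 : a ∈ S := (mem_sdiff.1 ha).1
      calc p a ^ 2 = G a a * (p a * p a) := by rw [hd]; ring
        _ ≤ ∑ b ∈ S, G a b * (p a * p b) :=
          single_le_sum (f := fun b => G a b * (p a * p b)) (fun b _ => hnn a b) ha2
    · rw [pow_two, sum_mul]
      refine sum_le_sum fun a ha => ?_
      rw [mul_sum]
      calc ∑ b ∈ N, p a * p b = ∑ b ∈ N, G a b * (p a * p b) :=
            sum_congr rfl fun b hb => by rw [hcl a ha b hb, one_mul]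
        _ ≤ ∑ b ∈ S, G a b * (p a * p b) := sum_le_sum_of_subset_of_nonneg hN
            (fun b _ _ => hnn a b)
  rw [h1, h2]
  nlinarith [h3]

/-- the case of a nonnegative vector -/
lemma quad_bound' (S : Finset ι) (G : ι → ι → ℤ) (hG : ∀ a b, G a b = 0 ∨ G a b = 1)
    (hd : ∀ a, G a a = 1) (p : ι → ℤ) (hp : ∀ a, 0 ≤ p a) :
    ∑ a ∈ S, p a ^ 2 ≤ ∑ a ∈ S, ∑ b ∈ S, G a b * (p a * p b) := by
  refine sum_le_sum fun a ha => ?_
  have hnn : ∀ b, 0 ≤ G a b * (p a * p b) := by
    intro b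
    refine mul_nonneg ?_ (mul_nonneg (hp a) (hp b))
    rcases hG a b with h | h <;> rw [h] <;> norm_num
  calc p a ^ 2 = G a a * (p a * p a) := by rw [hd]; ring
    _ ≤ ∑ b ∈ S, G a b * (p a * p b) :=
      single_le_sum (f := fun b => G a b * (p a * p b)) (fun b _ => hnn b) ha

end quad

variable {P : Type u} [Fintype P] [PartialOrder P] [DecidableEq P] {r j : ℕ}
variable {t : P} {lo hi : ℕ → ℕ} {x : ℕ → ℕ → P}

open Classical in
/-- the elements of `PD` below `t` -/
noncomputable def PDt (i : ℕ) (t : P) : Finset P := (PD P i).filter (fun y => y ≤ t)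

open Classical in
/-- the elements of `PU` below `t` -/
noncomputable def PUt (i : ℕ) (t : P) : Finset P := (PU P i).filter (fun y => y ≤ t)

lemma mem_PDt {i : ℕ} {y : P} : y ∈ PDt i t ↔ y ∈ PD P i ∧ y ≤ t := by
  classical
  unfold PDt
  rw [mem_filter]

lemma mem_PUt {i : ℕ} {y : P} : y ∈ PUt i t ↔ y ∈ PU P i ∧ y ≤ t := by
  classical
  unfold PUt
  rw [mem_filter]

/-- `PD` in coordinates: left end -/
theorem Comp.PD_left (C : Comp P t j lo hi x) (h : GoodTo P r j) (ht : lev t = 0) {m : ℕ}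
    (hm : m + 2 ≤ j) (h1 : lo (m + 1) = lo m + 1) (h2 : lo (m + 2) = lo (m + 1))
    (h3 : lo m < hi m) : x (m + 2) (lo (m + 2)) ∈ PD P m := by
  have e1 := C.lohi (m + 1) (by omega)
  have e2 := C.lohi (m + 2) hm
  have hlev := C.lev_x (m + 2) hm _ le_rfl e2
  have hu : x (m + 2) (lo (m + 2)) ⋖ x (m + 1) (lo (m + 1)) :=
    (C.cov (m + 1) (by omega) _ _ le_rfl e2 le_rfl e1).2 (Or.inl h2.symm)
  rw [mem_PD]
  refine ⟨hlev, ?_, _, hu, (C.uc_two h ht (k := m) (by omega) le_rfl e1).2 ⟨by omega, by omega⟩⟩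
  rcases uc_card_cases h.H (x := x (m + 2) (lo (m + 2))) (by omega) with h5 | h5
  · exact h5
  · exfalso
    rw [C.uc_two h ht (k := m + 1) (by omega) le_rfl e2] at h5
    have h6 : lo (m + 1) < lo (m + 2) := h5.1
    omega

/-- `PD` in coordinates: right end -/
theorem Comp.PD_right (C : Comp P t j lo hi x) (h : GoodTo P r j) (ht : lev t = 0) {m : ℕ}
    (hm : m + 2 ≤ j) (h1 : hi (m + 1) = hi m) (h2 : hi (m + 2) = hi (m + 1) + 1)
    (h3 : lo m < hi m) : x (m + 2) (hi (m + 2)) ∈ PD P m := by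
  have e1 := C.lohi (m + 1) (by omega)
  have e2 := C.lohi (m + 2) hm
  have hlev := C.lev_x (m + 2) hm _ e2 le_rfl
  have hu : x (m + 2) (hi (m + 2)) ⋖ x (m + 1) (hi (m + 1)) :=
    (C.cov (m + 1) (by omega) _ _ e2 le_rfl e1 le_rfl).2 (Or.inr h2.symm)
  rw [mem_PD]
  refine ⟨hlev, ?_, _, hu, (C.uc_two h ht (k := m) (by omega) e1 le_rfl).2 ⟨by omega, by omega⟩⟩
  rcases uc_card_cases h.H (x := x (m + 2) (hi (m + 2))) (by omega) with h5 | h5
  · exact h5
  · exfalso
    rw [C.uc_two h ht (k := m + 1) (by omega) e2 le_rfl] at h5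
    have h6 : hi (m + 2) ≤ hi (m + 1) := h5.2
    omega

/-- `PD` in coordinates: the elements of `PD` below `t` sit at the ends of the row -/
theorem Comp.PD_cases (C : Comp P t j lo hi x) (h : GoodTo P r j) (ht : lev t = 0) {m : ℕ}
    (hm : m + 2 ≤ j) {y : P} (hy : y ∈ PD P m) (hyt : y ≤ t) :
    lo m < hi m ∧
    ((lo (m + 1) = lo m + 1 ∧ lo (m + 2) = lo (m + 1) ∧ y = x (m + 2) (lo (m + 2)) ∧
      sts m y = {x m (lo m), x m (lo m + 1)}) ∨
    (hi (m + 1) = hi m ∧ hi (m + 2) = hi (m + 1) + 1 ∧ y = x (m + 2) (hi (m + 2)) ∧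
      sts m y = {x m (hi m - 1), x m (hi m)})) := by
  obtain ⟨hly, hy1, w, hw, hw2⟩ := mem_PD.1 hy
  obtain ⟨c, c1, c2, rfl⟩ := C.surj (m + 2) hm y hly hyt
  obtain ⟨a, a1, a2, a3, rfl⟩ := (C.uc_iff h ht (k := m + 1) (by omega) c1 c2).1 hw
  rw [C.uc_two h ht (k := m) (by omega) a1 a2] at hw2
  have huc : uc (x (m + 2) c) = {x (m + 1) a} := by
    obtain ⟨v, hv⟩ := Finset.card_eq_one.1 hy1
    have h1 : x (m + 1) a ∈ uc (x (m + 2) c) := mem_uc.2 hw
    rw [hv, mem_singleton] at h1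
    rw [hv, h1]
  have hst := ClE_sts h.H (i := m) hly huc
  rw [C.uc_eq h ht (by omega) hw2.1 hw2.2] at hst
  have e1 := C.lo_le m (by omega)
  have e2 := C.lo_ge m (by omega)
  have e3 := C.hi_le m (by omega)
  have e4 := C.hi_ge m (by omega)
  have e5 : lo (m + 1) ≤ lo (m + 2) := C.lo_le (m + 1) (by omega)
  have e6 : hi (m + 2) ≤ hi (m + 1) + 1 := C.hi_ge (m + 1) (by omega)
  have hn : ¬ (lo (m + 1) < c ∧ c ≤ hi (m + 1)) := by
    rw [← C.uc_two h ht (k := m + 1) (by omega) c1 c2]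
    change ¬ (uc (x (m + 2) c)).card = 2
    omega
  refine ⟨by omega, ?_⟩
  rcases a3 with rfl | rfl
  · left
    have f1 : lo (m + 1) = lo m + 1 := by omega
    have f2 : lo (m + 2) = lo (m + 1) := by omega
    have f3 : a = lo (m + 2) := by omega
    refine ⟨f1, f2, by rw [f3], ?_⟩
    rw [hst, f3, f2, f1, Nat.add_sub_cancel]
  · right
    have f1 : hi (m + 1) = hi m := by omega
    have f2 : hi (m + 2) = hi (m + 1) + 1 := by omega
    have f3 : a + 1 = hi (m + 2) := by omega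
    refine ⟨f1, f2, by rw [f3], ?_⟩
    rw [hst, show a = hi m by omega]

/-- At most one element of `PU` below every maximal element, if `PD` and `PU` have equally many
elements below every maximal element at the windows three levels higher. -/
theorem Comp.PU_le_one (C : Comp P t j lo hi x) (h : GoodTo P r j) (ht : lev t = 0)
    (hpd : ∀ i, i + 3 ≤ j → (PDt i t).card = (PUt i t).card) :
    ∀ i, i + 1 ≤ j → (PUt i t).card ≤ 1 := by
  classical
  intro i
  induction i using Nat.strong_induction_on with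
  | _ i ih =>
    intro hij
    rcases Nat.lt_or_ge i 2 with h0 | h0
    · rw [Finset.card_le_one]
      intro a ha
      have h1 := (mem_PU.1 (mem_PUt.1 ha).1).1
      omega
    obtain ⟨m, rfl⟩ : ∃ m, i = m + 2 := ⟨i - 2, by omega⟩
    rw [Finset.card_le_one]
    intro y hy y' hy'
    rw [mem_PUt] at hy hy'
    obtain ⟨h1, h2⟩ := C.PU_cases h ht (by omega) hy.1 hy.2
    obtain ⟨-, h2'⟩ := C.PU_cases h ht (by omega) hy'.1 hy'.2
    have key : ¬ ((lo (m + 1) = lo m + 1 ∧ lo (m + 2) = lo (m + 1)) ∧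
        (hi (m + 1) = hi m ∧ hi (m + 2) = hi (m + 1) + 1)) := by
      rintro ⟨⟨g1, g2⟩, g3, g4⟩
      have g5 : lo m < hi m := by
        have := C.lohi (m + 1) (by omega)
        omega
      have g6 := C.PD_left h ht (by omega) g1 g2 g5
      have g7 := C.PD_right h ht (by omega) g3 g4 g5
      have g8 := ih m (by omega) (by omega)
      rw [← hpd m (by omega), Finset.card_le_one] at g8
      have g9 := C.lohi (m + 2) (by omega)
      have g10 := g8 _ (mem_PDt.2 ⟨g6, C.le_t (m + 2) (by omega) _ le_rfl g9⟩) _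
        (mem_PDt.2 ⟨g7, C.le_t (m + 2) (by omega) _ g9 le_rfl⟩)
      exact C.inj (m + 2) (by omega) _ _ le_rfl (by omega) le_rfl g10
    rcases h2 with ⟨g1, g2, g3, -⟩ | ⟨g1, g2, g3, -⟩
    · rcases h2' with ⟨-, -, g3', -⟩ | ⟨g1', g2', g3', -⟩
      · rw [g3, g3']
      · exact absurd ⟨⟨g1, g2⟩, g1', g2'⟩ key
    · rcases h2' with ⟨g1', g2', g3', -⟩ | ⟨-, -, g3', -⟩
      · exact absurd ⟨⟨g1', g2'⟩, g1, g2⟩ key
      · rw [g3, g3']

end Pool.Agent.GaussPoset.Win
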