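import Pool.Agent.W_448cr_h63.CD

/-!
# Component rows at good levels (MP_448cb3_co), part E: counting pairs with disjoint sites
-/

namespace Pool.Agent.GaussPoset.Win

set_option linter.unusedSectionVars false

open Finset

universe u

section cnt

variable {α ι P : Type*} [DecidableEq P] [DecidableEq ι]

/-- ordered and unordered pairs -/
lemma card_pairs [DecidableEq α] (R : α → α → Prop) (hR : ∀ a b, R a b → R b a)
    (hirr : ∀ a, ¬ R a a) (C : Finset (α × α)) (hC : ∀ q, q ∈ C ↔ R q.1 q.2)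
    (B : Finset (Finset α)) (hB : ∀ T, T ∈ B ↔ ∃ a b, R a b ∧ T = {a, b}) :
    C.card = 2 * B.card := by
  classical
  have hmaps : ∀ q ∈ C, ({q.1, q.2} : Finset α) ∈ B := by
    intro q hq
    exact (hB _).2 ⟨q.1, q.2, (hC q).1 hq, rfl⟩
  rw [Finset.card_eq_sum_card_fiberwise hmaps, mul_comm, ← smul_eq_mul, ← Finset.sum_const]
  refine Finset.sum_congr rfl fun T hT => ?_
  obtain ⟨a, b, hRab, rfl⟩ := (hB T).1 hT
  have hab : a ≠ b := by
    rintro rfl
    exact hirr _ hRab
  have h1 : C.filter (fun q => ({q.1, q.2} : Finset α) = {a, b}) = {(a, b), (b, a)} := by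
    ext ⟨c, d⟩
    rw [mem_filter, hC]
    simp only [mem_insert, mem_singleton, Prod.mk.injEq]
    constructor
    · rintro ⟨hcd, he⟩
      have hcd' : c ≠ d := by
        rintro rfl
        exact hirr _ hcd
      have h2 : c ∈ ({a, b} : Finset α) := by rw [← he]; simp
      have h3 : d ∈ ({a, b} : Finset α) := by rw [← he]; simp
      simp only [mem_insert, mem_singleton] at h2 h3
      rcases h2 with rfl | rfl <;> rcases h3 with rfl | rfl
      · exact absurd rfl hcd'
      · exact Or.inl ⟨rfl, rfl⟩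
      · exact Or.inr ⟨rfl, rfl⟩
      · exact absurd rfl hcd'
    · rintro (⟨rfl, rfl⟩ | ⟨rfl, rfl⟩)
      · exact ⟨hRab, rfl⟩
      · exact ⟨hR _ _ hRab, Finset.pair_comm _ _⟩
  rw [h1, Finset.card_pair]
  intro h2
  rw [Prod.mk.injEq] at h2
  exact hab h2.1

/-- grouping by the edge -/
lemma fib_sum (A : Finset α) (s : α → Finset P) (I : Finset ι) (E : ι → Finset P)
    (hinj : ∀ q ∈ I, ∀ q' ∈ I, E q = E q' → q = q') (hs : ∀ a ∈ A, ∃ q ∈ I, E q = s a)
    (F : Finset P → ℤ) :
    ∑ a ∈ A, F (s a) = ∑ q ∈ I, ((A.filter (fun a => s a = E q)).card : ℤ) * F (E q) := by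
  have h1 : ∀ q ∈ I, ((A.filter (fun a => s a = E q)).card : ℤ) * F (E q) =
      ∑ a ∈ A, if s a = E q then F (s a) else 0 := by
    intro q _
    rw [← sum_filter, Finset.card_eq_sum_ones, Nat.cast_sum, Finset.sum_mul]
    refine Finset.sum_congr rfl fun a ha => ?_
    rw [(mem_filter.1 ha).2]
    simp
  rw [Finset.sum_congr rfl h1, Finset.sum_comm]
  refine Finset.sum_congr rfl fun a ha => ?_
  obtain ⟨q, hq, hqa⟩ := hs a ha
  rw [Finset.sum_eq_single q, if_pos hqa.symm]
  · intro q' hq' hne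
    rw [if_neg]
    intro he
    exact hne (hinj q' hq' q hq (he.symm.trans hqa.symm))
  · intro h
    exact absurd hq h

/-- the two sets are not disjoint -/
def nd (e e' : Finset P) : ℤ := if Disjoint e e' then 0 else 1

lemma nd_comm (e e' : Finset P) : nd e e' = nd e' e := by
  unfold nd
  exact if_congr disjoint_comm rfl rfl

lemma fib_sum_two {β : Type*} (A : Finset α) (s : α → Finset P) (B : Finset β)
    (s' : β → Finset P) (I : Finset ι) (E : ι → Finset P)
    (hinj : ∀ q ∈ I, ∀ q' ∈ I, E q = E q' → q = q') (hs : ∀ a ∈ A, ∃ q ∈ I, E q = s a)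
    (hs' : ∀ a ∈ B, ∃ q ∈ I, E q = s' a) :
    ∑ a ∈ A, ∑ b ∈ B, nd (s a) (s' b) = ∑ q ∈ I, ∑ q' ∈ I, nd (E q) (E q') *
      (((A.filter (fun a => s a = E q)).card : ℤ) * ((B.filter (fun a => s' a = E q')).card : ℤ)) := by
  rw [fib_sum A s I E hinj hs (fun e => ∑ b ∈ B, nd e (s' b))]
  refine Finset.sum_congr rfl fun q _ => ?_
  rw [fib_sum B s' I E hinj hs' (fun e' => nd (E q) e'), Finset.mul_sum]
  refine Finset.sum_congr rfl fun q' _ => ?_
  ring

/-- all pairs minus the disjoint pairs -/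
lemma sum_nd {β : Type*} (A : Finset α) (s : α → Finset P) (B : Finset β) (s' : β → Finset P) :
    ∑ a ∈ A, ∑ b ∈ B, nd (s a) (s' b) = (A.card : ℤ) * B.card -
      ((A ×ˢ B).filter (fun q => Disjoint (s q.1) (s' q.2))).card := by
  rw [← Finset.sum_product (s := A) (t := B) (f := fun q => nd (s q.1) (s' q.2))]
  have h1 : ∀ q ∈ A ×ˢ B, nd (s q.1) (s' q.2) =
      1 - (if Disjoint (s q.1) (s' q.2) then (1 : ℤ) else 0) := by
    intro q _
    unfold nd
    split_ifs <;> norm_num
  rw [Finset.sum_congr rfl h1, Finset.sum_sub_distrib, Finset.sum_boole, Finset.sum_const,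
    Finset.card_product]
  simp

end cnt

section pos

variable {P : Type u} [Fintype P] [PartialOrder P] [DecidableEq P] {r j : ℕ}

/-- the identity for the pairs with disjoint sites -/
theorem quad_identity (H : Gr P r) {i : ℕ} (hi : 1 ≤ i) (hi2 : i + 1 ≤ r) (hg : Good P i)
    {ι : Type*} [DecidableEq ι] (I : Finset ι) (E : ι → Finset P)
    (hinj : ∀ q ∈ I, ∀ q' ∈ I, E q = E q' → q = q') (hD : ∀ z ∈ PD P i, ∃ q ∈ I, E q = sts i z)
    (hU : ∀ y ∈ PU P i, ∃ q ∈ I, E q = stD i y) :
    ∑ q ∈ I, ∑ q' ∈ I, nd (E q) (E q') *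
      ((((PD P i).filter (fun a => sts i a = E q)).card -
        ((PU P i).filter (fun a => stD i a = E q)).card : ℤ) *
      (((PD P i).filter (fun a => sts i a = E q')).card -
        ((PU P i).filter (fun a => stD i a = E q')).card)) =
      2 * ((CC P i).card - (DDf P i).card - (DUf P i).card) := by
  classical
  have hc := good_card H hi hi2 hg
  have h1 := fib_sum_two (PD P i) (sts i) (PD P i) (sts i) I E hinj hD hD
  have h2 := fib_sum_two (PU P i) (stD i) (PU P i) (stD i) I E hinj hU hU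
  have h3 := fib_sum_two (PD P i) (sts i) (PU P i) (stD i) I E hinj hD hU
  have h4 := fib_sum_two (PU P i) (stD i) (PD P i) (sts i) I E hinj hU hD
  rw [sum_nd] at h1 h2 h3 h4
  have g1 : ((PD P i ×ˢ PD P i).filter (fun q => Disjoint (sts i q.1) (sts i q.2))).card =
      2 * (DDf P i).card := by
    refine card_pairs (fun z z' => z ∈ PD P i ∧ z' ∈ PD P i ∧ Disjoint (sts i z) (sts i z'))
      (fun a b h => ⟨h.2.1, h.1, h.2.2.symm⟩) (fun a h => ?_) _ (fun q => ?_) _ (fun T => ?_)
    · have h6 := S5_card_sts H h.1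
      have h7 := disjoint_self.1 h.2.2
      rw [h7] at h6
      simp at h6
    · rw [mem_filter, mem_product]
      tauto
    · rw [mem_DDf]
      constructor
      · rintro ⟨z, z', hz, hz', hne, hd, hT⟩
        exact ⟨z, z', ⟨hz, hz', hd⟩, hT⟩
      · rintro ⟨z, z', ⟨hz, hz', hd⟩, hT⟩
        refine ⟨z, z', hz, hz', ?_, hd, hT⟩
        rintro rfl
        have h6 := S5_card_sts H hz
        have h7 := disjoint_self.1 hd
        rw [h7] at h6
        simp at h6
  have g2 : ((PU P i ×ˢ PU P i).filter (fun q => Disjoint (stD i q.1) (stD i q.2))).card =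
      2 * (DUf P i).card := by
    refine card_pairs (fun z z' => z ∈ PU P i ∧ z' ∈ PU P i ∧ Disjoint (stD i z) (stD i z'))
      (fun a b h => ⟨h.2.1, h.1, h.2.2.symm⟩) (fun a h => ?_) _ (fun q => ?_) _ (fun T => ?_)
    · have h6 := S5_card_stD H h.1
      have h7 := disjoint_self.1 h.2.2
      rw [h7] at h6
      simp at h6
    · rw [mem_filter, mem_product]
      tauto
    · rw [mem_DUf]
      constructor
      · rintro ⟨z, z', hz, hz', hne, hd, hT⟩
        exact ⟨z, z', ⟨hz, hz', hd⟩, hT⟩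
      · rintro ⟨z, z', ⟨hz, hz', hd⟩, hT⟩
        refine ⟨z, z', hz, hz', ?_, hd, hT⟩
        rintro rfl
        have h6 := S5_card_stD H hz
        have h7 := disjoint_self.1 hd
        rw [h7] at h6
        simp at h6
  have g3 : ((PD P i ×ˢ PU P i).filter (fun q => Disjoint (sts i q.1) (stD i q.2))).card =
      (CC P i).card := by
    congr 1
    ext q
    rw [mem_CC, mem_filter, mem_product]
    tauto
  have g4 : ((PU P i ×ˢ PD P i).filter (fun q => Disjoint (stD i q.1) (sts i q.2))).card =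
      (CC P i).card := by
    rw [← g3]
    refine Finset.card_bij' (fun q _ => (q.2, q.1)) (fun q _ => (q.2, q.1)) ?_ ?_ ?_ ?_
    · intro q hq
      rw [mem_filter, mem_product] at hq ⊢
      exact ⟨⟨hq.1.2, hq.1.1⟩, hq.2.symm⟩
    · intro q hq
      rw [mem_filter, mem_product] at hq ⊢
      exact ⟨⟨hq.1.2, hq.1.1⟩, hq.2.symm⟩
    · intro q _
      rfl
    · intro q _
      rfl
  rw [g1] at h1
  rw [g2] at h2
  rw [g3] at h3
  rw [g4] at h4
  have e1 : ∑ q ∈ I, ∑ q' ∈ I, nd (E q) (E q') *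
      ((((PD P i).filter (fun a => sts i a = E q)).card -
        ((PU P i).filter (fun a => stD i a = E q)).card : ℤ) *
      (((PD P i).filter (fun a => sts i a = E q')).card -
        ((PU P i).filter (fun a => stD i a = E q')).card)) =
      (∑ q ∈ I, ∑ q' ∈ I, nd (E q) (E q') *
      ((((PD P i).filter (fun a => sts i a = E q)).card : ℤ) *
        (((PD P i).filter (fun a => sts i a = E q')).card : ℤ))) +
      (∑ q ∈ I, ∑ q' ∈ I, nd (E q) (E q') *
      ((((PU P i).filter (fun a => stD i a = E q)).card : ℤ) *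
        (((PU P i).filter (fun a => stD i a = E q')).card : ℤ))) -
      (∑ q ∈ I, ∑ q' ∈ I, nd (E q) (E q') *
      ((((PD P i).filter (fun a => sts i a = E q)).card : ℤ) *
        (((PU P i).filter (fun a => stD i a = E q')).card : ℤ))) -
      (∑ q ∈ I, ∑ q' ∈ I, nd (E q) (E q') *
      ((((PU P i).filter (fun a => stD i a = E q)).card : ℤ) *
        (((PD P i).filter (fun a => sts i a = E q')).card : ℤ))) := by
    rw [← Finset.sum_add_distrib, ← Finset.sum_sub_distrib, ← Finset.sum_sub_distrib]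
    refine Finset.sum_congr rfl fun q _ => ?_
    rw [← Finset.sum_add_distrib, ← Finset.sum_sub_distrib, ← Finset.sum_sub_distrib]
    refine Finset.sum_congr rfl fun q' _ => ?_
    ring
  rw [e1, ← h1, ← h2, ← h3, ← h4, hc]
  push_cast
  ring

end pos

end Pool.Agent.GaussPoset.Win
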