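import Pool.Agent.W_448cr_h63.CE

/-!
# The near level lemma (MP_448cb3_co): the last good level
-/

namespace Pool.Agent.GaussPoset.Win

set_option linter.unusedSectionVars false

open Finset

universe u

variable {P : Type u} [Fintype P] [PartialOrder P] [DecidableEq P] {r j : ℕ}

/-- `|X3| = |XV|` below a good level -/
lemma X3_eq (H : Gr P r) {i : ℕ} (hi : 1 ≤ i) (hi2 : i ≤ r) (hg : Good P (i - 1)) :
    (XV P i).card = (X3 P i).card := by
  classical
  refine le_antisymm (card_XV_le H hi2).1 ?_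
  have h1 : ∀ y ∈ X3 P i, ∃ v, (y, v) ∈ XV P i := by
    intro y hy
    obtain ⟨hl, h3⟩ := mem_X3.1 hy
    have h4 : (dc y).card = 2 := by
      have h5 := dn_le_four H hi2 hl
      have h6 := dc_card_le H y
      omega
    obtain ⟨u, u', hne, huc⟩ := Finset.card_eq_two.1 h4
    have hu : u ⋖ y := by rw [← mem_dc, huc]; simp
    have hu' : u' ⋖ y := by rw [← mem_dc, huc]; simp
    have l1 := lev_cov H hu
    have l2 := lev_cov H hu'
    obtain ⟨v, hv, hv'⟩ := down_of_up hg (by omega) (by omega) hne hu hu'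
    have l3 := lev_cov H hv
    refine ⟨v, mem_XV.2 ⟨hy, mem_stD.2 ⟨by simp only; omega, hv.lt.trans hu.lt⟩, ?_⟩⟩
    intro w hw
    rw [huc, mem_insert, mem_singleton] at hw
    rcases hw with rfl | rfl
    · exact mem_dc.2 hv
    · exact mem_dc.2 hv'
  choose! f hf using h1
  refine Finset.card_le_card_of_injOn (fun y => (y, f y)) (fun y hy => hf y hy) ?_
  intro a _ b _ hab
  exact (Prod.mk.inj hab).1

/-- no element with two covers without a common cover of the covers, unless both are single-up -/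
lemma cov_of_Z3 (H : Gr P r) {i : ℕ} (hi : 1 ≤ i) (hi2 : i + 1 ≤ r) (hg : Good P i)
    (hZ : (ZV P i).card = (Z3 P i).card) {z v v' : P} (hz : lev z = i + 2) (hv : z ⋖ v)
    (hv' : z ⋖ v') (hne : v ≠ v') (h0 : ucv v v' = 0) : (uc v).card = 1 ∧ (uc v').card = 1 := by
  classical
  have l1 := lev_cov H hv
  have l2 := lev_cov H hv'
  have huc := StB_uc_pair H hv hv' hne
  have hsites : sts i z = uc v ∪ uc v' := by
    ext w
    rw [mem_sts_iff H hz, huc, mem_union]
    constructor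
    · rintro ⟨a, ha, hwa⟩
      rw [mem_insert, mem_singleton] at ha
      rcases ha with rfl | rfl
      · exact Or.inl hwa
      · exact Or.inr hwa
    · rintro (h | h)
      · exact ⟨v, by simp, h⟩
      · exact ⟨v', by simp, h⟩
  have hdis : Disjoint (uc v) (uc v') := by
    rw [Finset.disjoint_left]
    intro w hw hw'
    have := ucv_pos (mem_uc.1 hw) (mem_uc.1 hw')
    omega
  have hcard : up i z = (uc v).card + (uc v').card := by
    rw [← card_sts, hsites, Finset.card_union_of_disjoint hdis]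
  have h3 := (I32 H hi hi2 hg).1 z hz
  rcases uc_card_cases H (x := v) (by omega) with c1 | c1
  · rcases uc_card_cases H (x := v') (by omega) with c2 | c2
    · exact ⟨c1, c2⟩
    · exfalso
      obtain ⟨w, hw⟩ := (card_ZV_le (P := P) H (i := i)).2 hZ z (mem_Z3.2 ⟨hz, by omega⟩)
      have h4 := (mem_ZV.1 hw).2.2
      have h5 := h4 v (by rw [huc]; simp)
      have h6 := h4 v' (by rw [huc]; simp)
      exact Finset.disjoint_left.1 hdis h5 h6
  · rcases uc_card_cases H (x := v') (by omega) with c2 | c2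
    · exfalso
      obtain ⟨w, hw⟩ := (card_ZV_le (P := P) H (i := i)).2 hZ z (mem_Z3.2 ⟨hz, by omega⟩)
      have h4 := (mem_ZV.1 hw).2.2
      have h5 := h4 v (by rw [huc]; simp)
      have h6 := h4 v' (by rw [huc]; simp)
      exact Finset.disjoint_left.1 hdis h5 h6
    · omega

/-- the edge `a` of row `i` of the component of `t` -/
def Ed (x : P → ℕ → ℕ → P) (i : ℕ) (q : Σ _ : P, ℕ) : Finset P :=
  {x q.1 i (q.2 - 1), x q.1 i q.2}

lemma mem_Ed {x : P → ℕ → ℕ → P} {i : ℕ} {t : P} {a : ℕ} {v : P} :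
    v ∈ Ed x i ⟨t, a⟩ ↔ v = x t i (a - 1) ∨ v = x t i a := by
  unfold Ed
  rw [mem_insert, mem_singleton]

/-- the pendants below an element -/
noncomputable def pen (w : P) : Finset P := by
  classical exact univ.filter (fun z => z ⋖ w ∧ (uc z).card = 1)

lemma mem_pen {w z : P} : z ∈ pen w ↔ z ⋖ w ∧ (uc z).card = 1 := by
  classical
  unfold pen
  rw [mem_filter]
  simp

section family

variable {lo hi : P → ℕ → ℕ} {x : P → ℕ → ℕ → P} {i : ℕ}

/-- the edges of all components -/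
noncomputable def EI (lo hi : P → ℕ → ℕ) (i : ℕ) : Finset (Σ _ : P, ℕ) :=
  (lv P 0).sigma (fun t => Finset.Ioc (lo t i) (hi t i))

lemma mem_EI {q : Σ _ : P, ℕ} : q ∈ EI lo hi i ↔ lev q.1 = 0 ∧ lo q.1 i < q.2 ∧ q.2 ≤ hi q.1 i := by
  unfold EI
  rw [mem_sigma, mem_lv, mem_Ioc]

variable (hC : ∀ t : P, lev t = 0 → Comp P t (i + 1) (lo t) (hi t) (x t)) (h : GoodTo P r (i + 1))

include hC h in
lemma Ed_le {q : Σ _ : P, ℕ} (hq : q ∈ EI lo hi i) {v : P} (hv : v ∈ Ed x i q) :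
    v ≤ q.1 ∧ lev v = i := by
  rw [mem_EI] at hq
  unfold Ed at hv
  rw [mem_insert, mem_singleton] at hv
  have C := hC q.1 hq.1
  rcases hv with rfl | rfl
  · exact ⟨C.le_t i (by omega) _ (by omega) (by omega), C.lev_x i (by omega) _ (by omega) (by omega)⟩
  · exact ⟨C.le_t i (by omega) _ (by omega) (by omega), C.lev_x i (by omega) _ (by omega) (by omega)⟩

include hC h in
lemma Ed_top {q q' : Σ _ : P, ℕ} (hq : q ∈ EI lo hi i) (hq' : q' ∈ EI lo hi i) {v : P}
    (hv : v ∈ Ed x i q) (hv' : v ∈ Ed x i q') : q.1 = q'.1 := by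
  obtain ⟨h1, h2⟩ := Ed_le hC h hq hv
  obtain ⟨h3, -⟩ := Ed_le hC h hq' hv'
  exact h.top_eq (by omega) (mem_EI.1 hq).1 (mem_EI.1 hq').1 h1 h3

include hC h in
lemma Ed_near {t : P} {a b : ℕ} (hq : (⟨t, a⟩ : Σ _ : P, ℕ) ∈ EI lo hi i)
    (hq' : (⟨t, b⟩ : Σ _ : P, ℕ) ∈ EI lo hi i) :
    nd (Ed x i ⟨t, a⟩) (Ed x i ⟨t, b⟩) = if a ≤ b + 1 ∧ b ≤ a + 1 then 1 else 0 := by
  rw [mem_EI] at hq hq'
  obtain ⟨ht, ha1, ha2⟩ := hq
  obtain ⟨-, hb1, hb2⟩ := hq'
  simp only at ha1 ha2 hb1 hb2 ht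
  have C := hC t ht
  unfold nd
  by_cases hab : a ≤ b + 1 ∧ b ≤ a + 1
  · rw [if_pos hab, if_neg]
    intro hd
    rw [Finset.disjoint_left] at hd
    simp only [mem_Ed, not_or] at hd
    rcases Nat.lt_trichotomy a b with h1 | h1 | h1
    · exact (hd (Or.inr rfl)).1 (by rw [show b - 1 = a by omega])
    · exact (hd (Or.inr rfl)).2 (by rw [h1])
    · exact (hd (Or.inl rfl)).2 (by rw [show a - 1 = b by omega])
  · rw [if_neg hab, if_pos]
    rw [Finset.disjoint_left]
    intro v hv hv'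
    rw [mem_Ed] at hv hv'
    have key : ∀ c d, lo t i ≤ c → c ≤ hi t i → lo t i ≤ d → d ≤ hi t i → x t i c = x t i d →
        c = d := fun c d h1 h2 h3 h4 h5 => C.inj' (by omega) h1 h2 h3 h4 h5
    rcases hv with rfl | rfl <;> rcases hv' with hv' | hv'
    · have := key _ _ (by omega) (by omega) (by omega) (by omega) hv'
      omega
    · have := key _ _ (by omega) (by omega) (by omega) (by omega) hv'
      omega
    · have := key _ _ (by omega) (by omega) (by omega) (by omega) hv'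
      omega
    · have := key _ _ (by omega) (by omega) (by omega) (by omega) hv'
      omega

include hC h in
lemma Ed_inj : ∀ q ∈ EI lo hi i, ∀ q' ∈ EI lo hi i, Ed x i q = Ed x i q' → q = q' := by
  rintro ⟨t, a⟩ hq ⟨t', b⟩ hq' he
  have h1 : x t i a ∈ Ed x i ⟨t, a⟩ := by unfold Ed; simp
  have h2 : t = t' := Ed_top hC h hq hq' h1 (he ▸ h1)
  subst h2
  rw [mem_EI] at hq hq'
  obtain ⟨ht, ha1, ha2⟩ := hq
  obtain ⟨-, hb1, hb2⟩ := hq'
  simp only at ha1 ha2 hb1 hb2 ht
  have C := hC t ht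
  have key : ∀ c d, lo t i ≤ c → c ≤ hi t i → lo t i ≤ d → d ≤ hi t i → x t i c = x t i d →
      c = d := fun c d h1 h2 h3 h4 h5 => C.inj' (by omega) h1 h2 h3 h4 h5
  have h3 : x t i a ∈ Ed x i ⟨t, b⟩ := he ▸ h1
  have h4 : x t i b ∈ Ed x i ⟨t, a⟩ := by
    rw [he]
    unfold Ed
    simp
  rw [mem_Ed] at h3 h4
  have h5 : a = b := by
    rcases h3 with h3 | h3
    · have e1 := key _ _ (by omega) (by omega) (by omega) (by omega) h3
      rcases h4 with h4 | h4
      · have e2 := key _ _ (by omega) (by omega) (by omega) (by omega) h4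
        omega
      · have e2 := key _ _ (by omega) (by omega) (by omega) (by omega) h4
        omega
    · exact key _ _ (by omega) (by omega) (by omega) (by omega) h3
  rw [h5]

include hC h in
lemma Ed_PD : ∀ z ∈ PD P i, ∃ q ∈ EI lo hi i, Ed x i q = sts i z := by
  intro z hz
  obtain ⟨w, hw, hw2⟩ := S5_uc_PD hz
  obtain ⟨hlz, -, -⟩ := mem_PD.1 hz
  have hzw : z ⋖ w := by rw [← mem_uc, hw]; simp
  have hlw := lev_cov h.H hzw
  obtain ⟨t, hwt, ht⟩ := exists_above' (x := w) (j := 0) (Nat.zero_le _)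
  have C := hC t ht
  obtain ⟨a, a1, a2, rfl⟩ := C.surj (i + 1) le_rfl w (by omega) hwt
  rw [C.uc_two h ht (by omega) a1 a2] at hw2
  refine ⟨⟨t, a⟩, mem_EI.2 ⟨ht, hw2⟩, ?_⟩
  rw [ClE_sts h.H hlz hw, C.uc_eq h ht (by omega) hw2.1 hw2.2]
  rfl

include hC h in
lemma Ed_PU : ∀ y ∈ PU P i, ∃ q ∈ EI lo hi i, Ed x i q = stD i y := by
  intro y hy
  obtain ⟨t, hyt, ht⟩ := exists_above' (x := y) (j := 0) (Nat.zero_le _)
  have C := hC t ht
  have hl := (mem_PU.1 hy).1
  obtain ⟨m, rfl⟩ : ∃ m, i = m + 2 := ⟨i - 2, by omega⟩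
  obtain ⟨h1, h2⟩ := C.PU_cases h ht (by omega) hy hyt
  rcases h2 with ⟨-, -, -, h3⟩ | ⟨-, -, -, h3⟩
  · refine ⟨⟨t, lo t (m + 2) + 1⟩, mem_EI.2 ⟨ht, by simp only; omega, h1⟩, ?_⟩
    rw [h3]
    unfold Ed
    simp
  · refine ⟨⟨t, hi t (m + 2)⟩, mem_EI.2 ⟨ht, by simp only; omega, le_rfl⟩, ?_⟩
    rw [h3]
    rfl

include hC h in
/-- the elements of `PD` over an edge are the pendants below its double -/
lemma pen_eq {t : P} (ht : lev t = 0) {a : ℕ} (ha : lo t i < a) (ha' : a ≤ hi t i) :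
    (PD P i).filter (fun z => sts i z = Ed x i ⟨t, a⟩) = pen (x t (i + 1) a) := by
  have C := hC t ht
  have e1 := C.lo_ge i (by omega)
  have e2 := C.hi_le i (by omega)
  have huc := C.uc_eq h ht (by omega) ha ha'
  have hlw := C.lev_x (i + 1) le_rfl a (by omega) (by omega)
  ext z
  rw [mem_filter, mem_pen]
  constructor
  · rintro ⟨hz, hs⟩
    obtain ⟨w, hw, hw2⟩ := S5_uc_PD hz
    obtain ⟨hlz, h1, -⟩ := mem_PD.1 hz
    rw [ClE_sts h.H hlz hw] at hs
    have hzw : z ⋖ w := by rw [← mem_uc, hw]; simp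
    have hw1 : w ⋖ x t i (a - 1) := by
      rw [← mem_uc, hs]
      unfold Ed
      simp
    have hw2' : w ⋖ x t i a := by
      rw [← mem_uc, hs]
      unfold Ed
      simp
    have hd : dcv (x t i (a - 1)) (x t i a) = 1 := by
      rw [← h.good i (by omega) _ _ (C.lev_x i (by omega) _ (by omega) (by omega))
        (C.lev_x i (by omega) _ (by omega) ha') (C.inj i (by omega) _ _ (by omega) (by omega) ha'),
        C.ucv_lt h ht (by omega) (by omega) (by omega) ha', if_pos (by omega)]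
    have hx1 : x t (i + 1) a ⋖ x t i (a - 1) := by
      rw [← mem_uc, huc]
      simp
    have hx2 : x t (i + 1) a ⋖ x t i a := by
      rw [← mem_uc, huc]
      simp
    have he := StB_unique hd hw1 hw2' hx1 hx2
    rw [← he]
    exact ⟨hzw, h1⟩
  · rintro ⟨hz, h1⟩
    have hlz := lev_cov h.H hz
    refine ⟨mem_PD.2 ⟨by omega, h1, _, hz, (C.uc_two h ht (by omega) (by omega) (by omega)).2
      ⟨ha, ha'⟩⟩, ?_⟩
    have hw : uc z = {x t (i + 1) a} := by
      obtain ⟨v, hv⟩ := Finset.card_eq_one.1 h1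
      have h2 : x t (i + 1) a ∈ uc z := mem_uc.2 hz
      rw [hv, mem_singleton] at h2
      rw [hv, h2]
    rw [ClE_sts h.H (by omega) hw, huc]
    rfl

/-- the elements of `PU` over an edge -/
noncomputable def pu (x : P → ℕ → ℕ → P) (i : ℕ) (q : Σ _ : P, ℕ) : Finset P :=
  (PU P i).filter (fun y => stD i y = Ed x i q)

lemma mem_pu {q : Σ _ : P, ℕ} {y : P} : y ∈ pu x i q ↔ y ∈ PU P i ∧ stD i y = Ed x i q := by
  unfold pu
  rw [mem_filter]

include hC h in
lemma pu_sub {t : P} {a : ℕ} (hq : (⟨t, a⟩ : Σ _ : P, ℕ) ∈ EI lo hi i) :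
    pu x i ⟨t, a⟩ ⊆ PUt i t := by
  intro y hy
  rw [mem_pu] at hy
  rw [mem_PUt]
  refine ⟨hy.1, ?_⟩
  have h1 : x t i a ∈ stD i y := by
    rw [hy.2]
    unfold Ed
    simp
  rw [mem_EI] at hq
  have ht : lev t = 0 := hq.1
  have C := hC t ht
  have h2 := (mem_stD.1 h1).2
  obtain ⟨s, hys, hs⟩ := exists_above' (x := y) (j := 0) (Nat.zero_le _)
  have h3 := C.le_t i (by omega) a (by have := hq.2.1; simp only at this; omega) hq.2.2
  have h4 := C.lev_x i (by omega) a (by have := hq.2.1; simp only at this; omega) hq.2.2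
  rw [h.top_eq (by omega) ht hs h3 (h2.le.trans hys)]
  exact hys

end family

end Pool.Agent.GaussPoset.Win
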