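import Pool.Agent.W_448cr_h63.CF

/-!
# The near level lemma (MP_448cb3_co): conclusion
-/

namespace Pool.Agent.GaussPoset.Win

set_option linter.unusedSectionVars false

open Finset

universe u

variable {P : Type u} [Fintype P] [PartialOrder P] [DecidableEq P] {r j : ℕ}

/-- the letters C, O at the left end, levels `i - 2`, `i - 1`, `i` -/
def LCO (lo hi : ℕ → ℕ) (i : ℕ) : Prop :=
  2 ≤ i ∧ lo (i - 1) = lo (i - 2) + 1 ∧ lo i = lo (i - 1) ∧ lo i < hi i

/-- the letters C, O at the right end, levels `i - 2`, `i - 1`, `i` -/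
def RCO (lo hi : ℕ → ℕ) (i : ℕ) : Prop :=
  2 ≤ i ∧ hi (i - 1) = hi (i - 2) ∧ hi i = hi (i - 1) + 1 ∧ lo i < hi i

/-- the conclusion for one component: the numbers of pendants below the doubles of level `i + 1` -/
def S5c (lo hi : ℕ → ℕ) (x : ℕ → ℕ → P) (i : ℕ) : Prop :=
  (¬ LCO lo hi i ∧ ¬ RCO lo hi i ∧ ∀ a, lo i < a → a ≤ hi i → (pen (x (i + 1) a)).card = 0) ∨
  (LCO lo hi i ∧ ¬ RCO lo hi i ∧ ∃ b, (b = lo i + 1 ∨ (b = lo i + 2 ∧ b ≤ hi i)) ∧
    ∀ a, lo i < a → a ≤ hi i → (pen (x (i + 1) a)).card = if a = b then 1 else 0) ∨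
  (RCO lo hi i ∧ ¬ LCO lo hi i ∧ ∃ b, (b = hi i ∨ (b + 1 = hi i ∧ lo i < b)) ∧
    ∀ a, lo i < a → a ≤ hi i → (pen (x (i + 1) a)).card = if a = b then 1 else 0)

/-- nonnegative integers with sum one -/
lemma sum_one_cases {N : Finset ℕ} {p : ℕ → ℤ} (hp : ∀ a, 0 ≤ p a) (h : ∑ a ∈ N, p a = 1) :
    ∃ b ∈ N, ∀ a ∈ N, p a = if a = b then 1 else 0 := by
  obtain ⟨b, hb, hb0⟩ : ∃ b ∈ N, p b ≠ 0 := by
    by_contra hcon
    push Not at hcon
    rw [Finset.sum_eq_zero hcon] at h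
    omega
  have h1 := Finset.sum_erase_add N p hb
  rw [h] at h1
  have h2 : 0 ≤ ∑ a ∈ N.erase b, p a := Finset.sum_nonneg fun a _ => hp a
  have h3 := hp b
  have h4 : ∑ a ∈ N.erase b, p a = 0 := by omega
  have h5 := (Finset.sum_eq_zero_iff_of_nonneg (fun a _ => hp a)).1 h4
  refine ⟨b, hb, fun a ha => ?_⟩
  split_ifs with he
  · rw [he]
    omega
  · exact h5 a (mem_erase.2 ⟨he, ha⟩)

section family

variable {lo hi : P → ℕ → ℕ} {x : P → ℕ → ℕ → P} {i : ℕ}
variable (hC : ∀ t : P, lev t = 0 → Comp P t (i + 1) (lo t) (hi t) (x t)) (h : GoodTo P r (i + 1))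

/-- the signed number at an edge -/
noncomputable def al (x : P → ℕ → ℕ → P) (i : ℕ) (q : Σ _ : P, ℕ) : ℤ :=
  ((PD P i).filter (fun a => sts i a = Ed x i q)).card - ((pu x i q).card : ℤ)

include hC h in
/-- the form of one component is nonnegative; the case of equality -/
lemma comp_form {t : P} (ht : lev t = 0) (hPU : (PUt i t).card ≤ 1) :
    0 ≤ ∑ a ∈ Finset.Ioc (lo t i) (hi t i), ∑ b ∈ Finset.Ioc (lo t i) (hi t i),
      nd (Ed x i ⟨t, a⟩) (Ed x i ⟨t, b⟩) * (al x i ⟨t, a⟩ * al x i ⟨t, b⟩) ∧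
    (∑ a ∈ Finset.Ioc (lo t i) (hi t i), ∑ b ∈ Finset.Ioc (lo t i) (hi t i),
      nd (Ed x i ⟨t, a⟩) (Ed x i ⟨t, b⟩) * (al x i ⟨t, a⟩ * al x i ⟨t, b⟩) ≤ 0 →
      S5c (lo t) (hi t) (x t) i) := by
  classical
  have C := hC t ht
  have hmem : ∀ {a}, a ∈ Finset.Ioc (lo t i) (hi t i) → (⟨t, a⟩ : Σ _ : P, ℕ) ∈ EI lo hi i := by
    intro a ha
    rw [mem_Ioc] at ha
    exact mem_EI.2 ⟨ht, ha⟩
  -- rewrite the form
  set p : ℕ → ℤ := fun a => ((PD P i).filter (fun z => sts i z = Ed x i ⟨t, a⟩)).card with hpdef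
  have hp : ∀ a, 0 ≤ p a := fun a => Int.natCast_nonneg _
  have hpen : ∀ a, lo t i < a → a ≤ hi t i → p a = (pen (x t (i + 1) a)).card := by
    intro a h1 h2
    simp only [hpdef]
    rw [pen_eq hC h ht h1 h2]
  set G : ℕ → ℕ → ℤ := fun a b => if a ≤ b + 1 ∧ b ≤ a + 1 then 1 else 0 with hGdef
  have hG01 : ∀ a b, G a b = 0 ∨ G a b = 1 := by
    intro a b
    simp only [hGdef]
    split_ifs
    · exact Or.inr rfl
    · exact Or.inl rfl
  have hGd : ∀ a, G a a = 1 := fun a => if_pos ⟨by omega, by omega⟩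
  have hGs : ∀ a b, G a b = G b a := fun a b => if_congr and_comm rfl rfl
  have hnoL : ∀ {y}, y ∈ PUt i t → LCO (lo t) (hi t) i ∨ RCO (lo t) (hi t) i := by
    intro y hy
    rw [mem_PUt] at hy
    have hl := (mem_PU.1 hy.1).1
    obtain ⟨m, rfl⟩ : ∃ m, i = m + 2 := ⟨i - 2, by omega⟩
    obtain ⟨h1, h2⟩ := C.PU_cases h ht (by omega) hy.1 hy.2
    rcases h2 with ⟨g1, g2, -, -⟩ | ⟨g1, g2, -, -⟩
    · exact Or.inl ⟨by omega, g1, g2, h1⟩
    · exact Or.inr ⟨by omega, g1, g2, h1⟩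
  have hL : LCO (lo t) (hi t) i → x t (i - 2) (lo t (i - 2)) ∈ PUt i t := by
    rintro ⟨g0, g1, g2, g3⟩
    obtain ⟨m, rfl⟩ : ∃ m, i = m + 2 := ⟨i - 2, by omega⟩
    rw [mem_PUt]
    exact ⟨C.PU_left h ht (by omega) g1 g2 g3,
      C.le_t m (by omega) _ le_rfl (C.lohi m (by omega))⟩
  have hR : RCO (lo t) (hi t) i → x t (i - 2) (hi t (i - 2)) ∈ PUt i t := by
    rintro ⟨g0, g1, g2, g3⟩
    obtain ⟨m, rfl⟩ : ∃ m, i = m + 2 := ⟨i - 2, by omega⟩
    rw [mem_PUt]
    exact ⟨C.PU_right h ht (by omega) g1 g2 g3,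
      C.le_t m (by omega) _ (C.lohi m (by omega)) le_rfl⟩
  have hLR : ¬ (LCO (lo t) (hi t) i ∧ RCO (lo t) (hi t) i) := by
    rintro ⟨g1, g2⟩
    have g3 := Finset.card_le_one.1 hPU _ (hL g1) _ (hR g2)
    obtain ⟨f0, f1, f2, f3⟩ := g1
    obtain ⟨e0, e1, e2, e3⟩ := g2
    have g4 := C.inj' (by omega) le_rfl (C.lohi (i - 2) (by omega)) (C.lohi (i - 2) (by omega))
      le_rfl g3
    have g5 := C.lohi (i - 1) (by omega)
    omega
  by_cases hne : PUt i t = ∅
  · -- no element of `PU`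
    have hal : ∀ a ∈ Finset.Ioc (lo t i) (hi t i), al x i ⟨t, a⟩ = p a := by
      intro a ha
      have h1 := pu_sub hC h (hmem ha)
      rw [hne, Finset.subset_empty] at h1
      unfold al
      rw [h1]
      simp [hpdef]
    have hform : ∑ a ∈ Finset.Ioc (lo t i) (hi t i), ∑ b ∈ Finset.Ioc (lo t i) (hi t i),
        nd (Ed x i ⟨t, a⟩) (Ed x i ⟨t, b⟩) * (al x i ⟨t, a⟩ * al x i ⟨t, b⟩) =
        ∑ a ∈ Finset.Ioc (lo t i) (hi t i), ∑ b ∈ Finset.Ioc (lo t i) (hi t i),
        G a b * (p a * p b) := by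
      refine Finset.sum_congr rfl fun a ha => Finset.sum_congr rfl fun b hb => ?_
      rw [Ed_near hC h (hmem ha) (hmem hb), hal a ha, hal b hb]
    rw [hform]
    have h1 := quad_bound' (Finset.Ioc (lo t i) (hi t i)) G hG01 hGd p hp
    have h2 : 0 ≤ ∑ a ∈ Finset.Ioc (lo t i) (hi t i), p a ^ 2 :=
      Finset.sum_nonneg fun a _ => sq_nonneg _
    refine ⟨by linarith, fun h3 => Or.inl ⟨fun g => ?_, fun g => ?_, fun a ha ha' => ?_⟩⟩
    · have := hL g
      rw [hne] at this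
      exact absurd this (Finset.notMem_empty _)
    · have := hR g
      rw [hne] at this
      exact absurd this (Finset.notMem_empty _)
    · have h4 : ∑ a ∈ Finset.Ioc (lo t i) (hi t i), p a ^ 2 = 0 := by linarith
      have h5 := (Finset.sum_eq_zero_iff_of_nonneg (fun a _ => sq_nonneg (p a))).1 h4 a
        (mem_Ioc.2 ⟨ha, ha'⟩)
      have h6 : p a = 0 := by
        rw [sq_eq_zero_iff] at h5
        exact h5
      rw [hpen a ha ha'] at h6
      exact_mod_cast h6
  · -- one element of `PU`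
    obtain ⟨y0, hy0⟩ := Finset.nonempty_iff_ne_empty.2 hne
    have hsing : PUt i t = {y0} := by
      refine Finset.eq_singleton_iff_unique_mem.2 ⟨hy0, fun z hz => ?_⟩
      exact Finset.card_le_one.1 hPU z hz y0 hy0
    have hcase := hnoL hy0
    -- the end edge and its neighbours
    obtain ⟨e, N, he, hN, hcl, hnb, hst, hNs⟩ : ∃ (e : ℕ) (N : Finset ℕ), e ∈ N ∧
        N ⊆ Finset.Ioc (lo t i) (hi t i) ∧ (∀ a ∈ N, ∀ b ∈ N, G a b = 1) ∧
        (∀ b ∈ Finset.Ioc (lo t i) (hi t i), b ∉ N → G e b = 0) ∧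
        stD i y0 = Ed x i ⟨t, e⟩ ∧
        ((LCO (lo t) (hi t) i ∧ ∀ b ∈ N, b = lo t i + 1 ∨ (b = lo t i + 2 ∧ b ≤ hi t i)) ∨
          (RCO (lo t) (hi t) i ∧ ∀ b ∈ N, b = hi t i ∨ (b + 1 = hi t i ∧ lo t i < b))) := by
      rw [mem_PUt] at hy0
      have hl := (mem_PU.1 hy0.1).1
      obtain ⟨m, rfl⟩ : ∃ m, i = m + 2 := ⟨i - 2, by omega⟩
      obtain ⟨h1, h2⟩ := C.PU_cases h ht (by omega) hy0.1 hy0.2
      rcases h2 with ⟨g1, g2, -, g3⟩ | ⟨g1, g2, -, g3⟩
      · refine ⟨lo t (m + 2) + 1, (Finset.Ioc (lo t (m + 2)) (hi t (m + 2))).filter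
          (fun b => b ≤ lo t (m + 2) + 2), ?_, Finset.filter_subset _ _, ?_, ?_, ?_,
          Or.inl ⟨⟨by omega, g1, g2, h1⟩, ?_⟩⟩
        · rw [mem_filter, mem_Ioc]
          omega
        · intro a ha b hb
          rw [mem_filter, mem_Ioc] at ha hb
          exact if_pos (by omega)
        · intro b hb hb2
          rw [mem_filter] at hb2
          rw [mem_Ioc] at hb
          refine if_neg ?_
          rintro ⟨-, h5⟩
          exact hb2 ⟨mem_Ioc.2 hb, by omega⟩
        · rw [g3]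
          unfold Ed
          simp
        · intro b hb
          rw [mem_filter, mem_Ioc] at hb
          omega
      · refine ⟨hi t (m + 2), (Finset.Ioc (lo t (m + 2)) (hi t (m + 2))).filter
          (fun b => hi t (m + 2) ≤ b + 1), ?_, Finset.filter_subset _ _, ?_, ?_, ?_,
          Or.inr ⟨⟨by omega, g1, g2, h1⟩, ?_⟩⟩
        · rw [mem_filter, mem_Ioc]
          omega
        · intro a ha b hb
          rw [mem_filter, mem_Ioc] at ha hb
          exact if_pos (by omega)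
        · intro b hb hb2
          rw [mem_filter] at hb2
          rw [mem_Ioc] at hb
          refine if_neg ?_
          rintro ⟨h5, -⟩
          exact hb2 ⟨mem_Ioc.2 hb, by omega⟩
        · rw [g3]
          rfl
        · intro b hb
          rw [mem_filter, mem_Ioc] at hb
          omega
    have heI : e ∈ Finset.Ioc (lo t i) (hi t i) := hN he
    have hal : ∀ a ∈ Finset.Ioc (lo t i) (hi t i), al x i ⟨t, a⟩ = p a - if a = e then 1 else 0 := by
      intro a ha
      have h1 := pu_sub hC h (hmem ha)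
      rw [hsing] at h1
      unfold al
      congr 1
      split_ifs with hae
      · have h2 : y0 ∈ pu x i ⟨t, a⟩ := by
          rw [mem_pu, hae]
          exact ⟨(mem_PUt.1 hy0).1, hst⟩
        have h3 : pu x i ⟨t, a⟩ = {y0} :=
          Finset.Subset.antisymm h1 (Finset.singleton_subset_iff.2 h2)
        rw [h3]
        simp
      · have h3 : pu x i ⟨t, a⟩ = ∅ := by
          rw [Finset.eq_empty_iff_forall_notMem]
          intro z hz
          have h4 := h1 hz
          rw [mem_singleton] at h4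
          rw [mem_pu, h4, hst] at hz
          have h5 := Ed_inj hC h _ (hmem heI) _ (hmem ha) hz.2
          simp only [Sigma.mk.injEq, heq_eq_eq, true_and] at h5
          exact hae h5.symm
        rw [h3]
        simp
    have hform : ∑ a ∈ Finset.Ioc (lo t i) (hi t i), ∑ b ∈ Finset.Ioc (lo t i) (hi t i),
        nd (Ed x i ⟨t, a⟩) (Ed x i ⟨t, b⟩) * (al x i ⟨t, a⟩ * al x i ⟨t, b⟩) =
        ∑ a ∈ Finset.Ioc (lo t i) (hi t i), ∑ b ∈ Finset.Ioc (lo t i) (hi t i),
        G a b * ((p a - if a = e then 1 else 0) * (p b - if b = e then 1 else 0)) := by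
      refine Finset.sum_congr rfl fun a ha => Finset.sum_congr rfl fun b hb => ?_
      rw [Ed_near hC h (hmem ha) (hmem hb), hal a ha, hal b hb]
    rw [hform]
    have h1 := quad_bound (Finset.Ioc (lo t i) (hi t i)) N G hG01 hGd hN hcl he hGs hnb p hp
    have h2 : 0 ≤ ∑ a ∈ Finset.Ioc (lo t i) (hi t i) \ N, p a ^ 2 :=
      Finset.sum_nonneg fun a _ => sq_nonneg _
    have h3 := sq_nonneg (∑ a ∈ N, p a - 1)
    refine ⟨by linarith, fun h4 => ?_⟩
    have h5 : (∑ a ∈ N, p a - 1) ^ 2 = 0 := by linarith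
    have h6 : ∑ a ∈ N, p a = 1 := by
      rw [sq_eq_zero_iff] at h5
      linarith
    have h7 : ∑ a ∈ Finset.Ioc (lo t i) (hi t i) \ N, p a ^ 2 = 0 := by linarith
    have h8 : ∀ a ∈ Finset.Ioc (lo t i) (hi t i) \ N, p a = 0 := by
      intro a ha
      have h9 := (Finset.sum_eq_zero_iff_of_nonneg (fun a _ => sq_nonneg (p a))).1 h7 a ha
      rw [sq_eq_zero_iff] at h9
      exact h9
    obtain ⟨b, hb, hb2⟩ := sum_one_cases hp h6
    have h10 : ∀ a, lo t i < a → a ≤ hi t i → (pen (x t (i + 1) a)).card = if a = b then 1 else 0 := by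
      intro a ha ha'
      have h11 : p a = if a = b then 1 else 0 := by
        by_cases haN : a ∈ N
        · exact hb2 a haN
        · rw [h8 a (mem_sdiff.2 ⟨mem_Ioc.2 ⟨ha, ha'⟩, haN⟩), if_neg]
          rintro rfl
          exact haN hb
      rw [hpen a ha ha'] at h11
      split_ifs at h11 ⊢ <;> exact_mod_cast h11
    rcases hNs with ⟨g1, g2⟩ | ⟨g1, g2⟩
    · exact Or.inr (Or.inl ⟨g1, fun g => hLR ⟨g1, g⟩, b, g2 b hb, h10⟩)
    · exact Or.inr (Or.inr ⟨g1, fun g => hLR ⟨g, g1⟩, b, g2 b hb, h10⟩)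

include hC h in
/-- the near level lemma, family form -/
theorem S5_family (hi1 : 1 ≤ i) (hPU : ∀ t : P, lev t = 0 → (PUt i t).card ≤ 1) :
    (ZV P i).card = (Z3 P i).card ∧ ∀ t : P, lev t = 0 → S5c (lo t) (hi t) (x t) i := by
  classical
  have H := h.H
  have hir := h.hr
  have hg := h.good i (by omega)
  have hq := quad_identity H hi1 hir hg (EI lo hi i) (Ed x i) (Ed_inj hC h) (Ed_PD hC h)
    (Ed_PU hC h)
  have h42 := I42_gen H hi1 hir hg
  have hx := X3_eq H hi1 (by omega) (h.good (i - 1) (by omega))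
  have hz := (card_ZV_le (P := P) H (i := i)).1
  have hsum : ∑ q ∈ EI lo hi i, ∑ q' ∈ EI lo hi i, nd (Ed x i q) (Ed x i q') *
      ((((PD P i).filter (fun a => sts i a = Ed x i q)).card -
        ((PU P i).filter (fun a => stD i a = Ed x i q)).card : ℤ) *
      (((PD P i).filter (fun a => sts i a = Ed x i q')).card -
        ((PU P i).filter (fun a => stD i a = Ed x i q')).card)) =
      ∑ t ∈ lv P 0, ∑ a ∈ Finset.Ioc (lo t i) (hi t i), ∑ b ∈ Finset.Ioc (lo t i) (hi t i),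
        nd (Ed x i ⟨t, a⟩) (Ed x i ⟨t, b⟩) * (al x i ⟨t, a⟩ * al x i ⟨t, b⟩) := by
    have e0 : ∀ q, ((((PD P i).filter (fun a => sts i a = Ed x i q)).card -
        ((PU P i).filter (fun a => stD i a = Ed x i q)).card : ℤ)) = al x i q := fun q => rfl
    simp only [e0]
    rw [show EI lo hi i = (lv P 0).sigma (fun t => Finset.Ioc (lo t i) (hi t i)) from rfl,
      Finset.sum_sigma]
    refine Finset.sum_congr rfl fun t ht => Finset.sum_congr rfl fun a ha => ?_
    rw [Finset.sum_sigma]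
    rw [mem_lv] at ht
    rw [mem_Ioc] at ha
    rw [Finset.sum_eq_single t]
    · intro t' ht' hne
      rw [mem_lv] at ht'
      refine Finset.sum_eq_zero fun b hb => ?_
      rw [mem_Ioc] at hb
      have h1 : Disjoint (Ed x i ⟨t, a⟩) (Ed x i ⟨t', b⟩) := by
        rw [Finset.disjoint_left]
        intro v hv hv'
        exact hne (Ed_top hC h (mem_EI.2 ⟨ht, ha⟩) (mem_EI.2 ⟨ht', hb⟩) hv hv').symm
      unfold nd
      rw [if_pos h1, zero_mul]
    · intro hn
      exact absurd (mem_lv.2 ht) hn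
  rw [hsum] at hq
  have hnn : ∀ t ∈ lv P 0, 0 ≤ ∑ a ∈ Finset.Ioc (lo t i) (hi t i),
      ∑ b ∈ Finset.Ioc (lo t i) (hi t i),
        nd (Ed x i ⟨t, a⟩) (Ed x i ⟨t, b⟩) * (al x i ⟨t, a⟩ * al x i ⟨t, b⟩) := fun t ht =>
    (comp_form hC h (mem_lv.1 ht) (hPU t (mem_lv.1 ht))).1
  have hs0 := Finset.sum_nonneg hnn
  rw [hq] at hs0
  have hz0 : (ZV P i).card = (Z3 P i).card := by omega
  refine ⟨hz0, fun t ht => ?_⟩
  refine (comp_form hC h ht (hPU t ht)).2 ?_
  have hs1 : ∑ t ∈ lv P 0, ∑ a ∈ Finset.Ioc (lo t i) (hi t i),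
      ∑ b ∈ Finset.Ioc (lo t i) (hi t i),
        nd (Ed x i ⟨t, a⟩) (Ed x i ⟨t, b⟩) * (al x i ⟨t, a⟩ * al x i ⟨t, b⟩) = 0 := by
    rw [hq]
    omega
  exact ((Finset.sum_eq_zero_iff_of_nonneg hnn).1 hs1 t (mem_lv.2 ht)).le

end family

/-- NEAR LEVEL LEMMA.  All levels less than `j = i + 1` are good, `i ≥ 1`, and at most one element
of `PU i` lies below every maximal element.  Then (1) two covers of an element of level `j + 1`
are neighbours (exactly one common cover) or both single-up without a common cover; (2) in every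
component there are no pendants below the doubles of level `j`, except that for letters C, O at one end
(levels `i - 2`, `i - 1`, `i`) there is exactly one pendant, below the end double or below the next
double (flip). -/
theorem near_level {i : ℕ} (h : GoodTo P r (i + 1)) (hi1 : 1 ≤ i)
    (hPU : ∀ t : P, lev t = 0 → (PUt i t).card ≤ 1) :
    (∀ z v v' : P, lev z = i + 2 → z ⋖ v → z ⋖ v' → v ≠ v' →
      ucv v v' = 1 ∨ ((uc v).card = 1 ∧ (uc v').card = 1 ∧ ucv v v' = 0)) ∧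
    ∀ (t : P) (lo hi : ℕ → ℕ) (x : ℕ → ℕ → P), lev t = 0 → Comp P t (i + 1) lo hi x →
      S5c lo hi x i := by
  classical
  have hex : ∀ t : P, ∃ (lo hi : ℕ → ℕ) (x : ℕ → ℕ → P), lev t = 0 → Comp P t (i + 1) lo hi x := by
    intro t
    by_cases ht : lev t = 0
    · obtain ⟨lo, hi, x, C⟩ := comp_exists h ht
      exact ⟨lo, hi, x, fun _ => C⟩
    · exact ⟨fun _ => 0, fun _ => 0, fun _ _ => t, fun h => absurd h ht⟩
  choose LO HI X hX using hex
  have h1 := S5_family (lo := LO) (hi := HI) (x := X) hX h hi1 hPU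
  constructor
  · intro z v v' hz hv hv' hne
    have l1 := lev_cov h.H hv
    have l2 := lev_cov h.H hv'
    rcases Nat.eq_zero_or_pos (ucv v v') with h0 | h0
    · right
      obtain ⟨h2, h3⟩ := cov_of_Z3 h.H hi1 h.hr (h.good i (by omega)) h1.1 hz hv hv' hne h0
      exact ⟨h2, h3, h0⟩
    · left
      obtain ⟨t, hvt, ht⟩ := exists_above' (x := v) (j := 0) (Nat.zero_le _)
      have hvt' := h.top_of_ucv (by omega) h0 ht hvt
      have C := hX t ht
      obtain ⟨a, a1, a2, rfl⟩ := C.surj (i + 1) le_rfl v (by omega) hvt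
      obtain ⟨b, b1, b2, rfl⟩ := C.surj (i + 1) le_rfl v' (by omega) hvt'
      have hab : a ≠ b := fun he => hne (by rw [he])
      rw [C.ucv_eq h ht le_rfl a1 a2 b1 b2 hab] at h0 ⊢
      split_ifs at h0 ⊢
      · rfl
      · omega
  · intro t lo hi x ht C
    have h2 := S5_family (lo := fun s => if s = t then lo else LO s)
      (hi := fun s => if s = t then hi else HI s) (x := fun s => if s = t then x else X s)
      (fun s hs => by
        by_cases hst : s = t
        · subst hst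
          simpa using C
        · simpa [hst] using hX s hs) h hi1 hPU
    have h3 := h2.2 t ht
    simpa using h3

end Pool.Agent.GaussPoset.Win
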